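import Mathlib

/-!
Definitions for the domination-ratio problem: dominating sets, domination number, reverse,
the class of `r`-regular strongly connected digraphs and the supremum `rho r`.
-/

set_option autoImplicit false

namespace Pool.Agent.Lib.MP_9a58dc_co

/-- `S` is dominating in `D`: every vertex outside `S` has an in-neighbour in `S`. -/
def Dominates {V : Type} (D : Digraph V) (S : Finset V) : Prop :=
  ∀ v, v ∉ S → ∃ u ∈ S, D.Adj u v

/-- The domination number: the least size of a dominating set. -/
noncomputable def gamma {V : Type} (D : Digraph V) : ℕ :=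
  sInf {m | ∃ S : Finset V, S.card = m ∧ Dominates D S}

/-- The reverse digraph: every arc is reversed. -/
def rev {V : Type} (D : Digraph V) : Digraph V := ⟨fun u v => D.Adj v u⟩

/-- `D` is a loopless `r`-regular strongly connected digraph. -/
structure InClass (r : ℕ) {V : Type} (D : Digraph V) : Prop where
  loopless : ∀ v, ¬ D.Adj v v
  outdeg : ∀ v, Set.ncard {w | D.Adj v w} = r
  indeg : ∀ v, Set.ncard {w | D.Adj w v} = r
  strong : ∀ u v, Relation.ReflTransGen D.Adj u v

/-- The set of all ratios `γ(D⁻)/γ(D)`, for `D` a finite nonempty `r`-regular strongly connected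
digraph. -/
def ratios (r : ℕ) : Set ℝ :=
  {x | ∃ (V : Type) (_ : Finite V) (_ : Nonempty V) (D : Digraph V),
    InClass r D ∧ x = (gamma (rev D) : ℝ) / (gamma D : ℝ)}

/-- `ρ_r`, the supremum of the ratios. -/
noncomputable def rho (r : ℕ) : ℝ := sSup (ratios r)

end Pool.Agent.Lib.MP_9a58dc_co
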