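import Mathlib
import Pool.Agent.Lib.MP_9a58dc_co.Defs

/-!
Lower bound construction: digraphs coming from families of balanced partitions.
-/

set_option autoImplicit false

namespace Pool.Agent.Lib.MP_9a58dc_co

open Finset

section counting

variable {Y : Type} [Fintype Y] [DecidableEq Y]

/-- fraction of `k`-sets avoiding a given `τ`-set. -/
noncomputable def pr (n k τ : ℕ) : ℝ := (Nat.choose (n - τ) k : ℝ) / Nat.choose n k

theorem card_disjoint (k : ℕ) (T : Finset Y) :
    ((powersetCard k (univ : Finset Y)).filter fun A => Disjoint A T).card =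
      Nat.choose (Fintype.card Y - T.card) k := by
  have : ((powersetCard k (univ : Finset Y)).filter fun A => Disjoint A T) =
      powersetCard k (univ \ T) := by
    ext A
    simp only [mem_filter, mem_powersetCard, subset_univ, true_and]
    constructor
    · rintro ⟨h1, h2⟩
      refine ⟨?_, h1⟩
      intro a ha
      simp only [mem_sdiff, mem_univ, true_and]
      exact fun h => (Finset.disjoint_left.mp h2) ha h
    · rintro ⟨h1, h2⟩
      refine ⟨h2, ?_⟩
      rw [Finset.disjoint_left]
      intro a ha h
      have := h1 ha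
      simp [h] at this
  rw [this, card_powersetCard, Finset.card_sdiff_of_subset (subset_univ _), Finset.card_univ]

theorem exists_set_step (k τ : ℕ) (hk : k ≤ Fintype.card Y) (F : Finset (Finset Y))
    (hF : ∀ T ∈ F, T.card = τ) :
    ∃ A : Finset Y, A.card = k ∧
      ((F.filter fun T => ¬ Disjoint A T).card : ℝ) ≤ F.card * (1 - pr (Fintype.card Y) k τ) := by
  classical
  set n := Fintype.card Y with hn
  have hC : (0 : ℝ) < Nat.choose n k := by exact_mod_cast Nat.choose_pos hk
  have hsum : ∑ A ∈ powersetCard k (univ : Finset Y), (F.filter fun T => Disjoint A T).card =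
      F.card * Nat.choose (n - τ) k := by
    have := Finset.sum_card_bipartiteAbove_eq_sum_card_bipartiteBelow
      (s := powersetCard k (univ : Finset Y)) (t := F) (fun A T => Disjoint A T)
    simp only [Finset.bipartiteAbove, Finset.bipartiteBelow] at this
    rw [this]
    have h2 : ∀ T ∈ F, ((powersetCard k (univ : Finset Y)).filter fun A => Disjoint A T).card =
        Nat.choose (n - τ) k := by
      intro T hT
      rw [card_disjoint, hF T hT]
    rw [Finset.sum_congr rfl h2]
    simp
  have hne : (powersetCard k (univ : Finset Y)).Nonempty := by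
    rw [powersetCard_nonempty]; simpa using hk
  have : ∃ A ∈ powersetCard k (univ : Finset Y),
      (F.card : ℝ) * pr n k τ ≤ (F.filter fun T => Disjoint A T).card := by
    by_contra hcon
    push Not at hcon
    have h1 : ∑ A ∈ powersetCard k (univ : Finset Y),
        ((F.filter fun T => Disjoint A T).card : ℝ) <
        ∑ _A ∈ powersetCard k (univ : Finset Y), (F.card : ℝ) * pr n k τ := by
      apply Finset.sum_lt_sum_of_nonempty hne
      intro A hA
      exact hcon A hA
    rw [Finset.sum_const, card_powersetCard, Finset.card_univ, nsmul_eq_mul, ← hn] at h1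
    have h2 : (Nat.choose n k : ℝ) * (F.card * pr n k τ) = F.card * Nat.choose (n - τ) k := by
      unfold pr
      field_simp
    rw [h2] at h1
    have h3 : ∑ A ∈ powersetCard k (univ : Finset Y),
        ((F.filter fun T => Disjoint A T).card : ℝ) = F.card * Nat.choose (n - τ) k := by
      exact_mod_cast hsum
    linarith
  obtain ⟨A, hA, hA2⟩ := this
  refine ⟨A, (mem_powersetCard.mp hA).2, ?_⟩
  have h4 : (F.filter fun T => Disjoint A T).card + (F.filter fun T => ¬ Disjoint A T).card =
      F.card := Finset.card_filter_add_card_filter_not _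
  have h5 : ((F.filter fun T => Disjoint A T).card : ℝ) +
      (F.filter fun T => ¬ Disjoint A T).card = F.card := by exact_mod_cast h4
  have : (F.card : ℝ) * (1 - pr n k τ) = F.card - F.card * pr n k τ := by ring
  rw [this]
  linarith

theorem pr_le_one (n k τ : ℕ) (hk : k ≤ n) : pr n k τ ≤ 1 := by
  have hC : (0 : ℝ) < Nat.choose n k := by exact_mod_cast Nat.choose_pos hk
  unfold pr
  rw [div_le_one hC]
  exact_mod_cast Nat.choose_le_choose k (Nat.sub_le _ _)

theorem exists_sets (k τ : ℕ) (hk : k ≤ Fintype.card Y) (m : ℕ) :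
    ∃ A : Fin m → Finset Y, (∀ i, (A i).card = k) ∧
      (((powersetCard τ (univ : Finset Y)).filter fun T => ∀ i, ¬ Disjoint (A i) T).card : ℝ) ≤
        Nat.choose (Fintype.card Y) τ * (1 - pr (Fintype.card Y) k τ) ^ m := by
  classical
  induction m with
  | zero =>
    refine ⟨fun i => i.elim0, fun i => i.elim0, ?_⟩
    simp
  | succ m ih =>
    obtain ⟨A, hA, hA2⟩ := ih
    set F := (powersetCard τ (univ : Finset Y)).filter fun T => ∀ i, ¬ Disjoint (A i) T with hF
    obtain ⟨B, hB, hB2⟩ := exists_set_step k τ hk F (fun T hT => by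
      rw [hF, mem_filter, mem_powersetCard] at hT
      exact hT.1.2)
    refine ⟨Fin.cons B A, ?_, ?_⟩
    · intro i
      refine Fin.cases ?_ ?_ i
      · simpa using hB
      · intro j; simpa using hA j
    · have hsub : ((powersetCard τ (univ : Finset Y)).filter
          fun T => ∀ i, ¬ Disjoint ((Fin.cons B A : Fin (m + 1) → Finset Y) i) T) =
          F.filter fun T => ¬ Disjoint B T := by
        ext T
        simp only [hF, mem_filter, Fin.forall_fin_succ, Fin.cons_zero, Fin.cons_succ]
        tauto
      rw [hsub]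
      refine hB2.trans ?_
      have h1 : 0 ≤ 1 - pr (Fintype.card Y) k τ := by
        have := pr_le_one (Fintype.card Y) k τ hk
        linarith
      calc (F.card : ℝ) * (1 - pr (Fintype.card Y) k τ)
          ≤ (Nat.choose (Fintype.card Y) τ * (1 - pr (Fintype.card Y) k τ) ^ m) *
            (1 - pr (Fintype.card Y) k τ) := mul_le_mul_of_nonneg_right hA2 h1
        _ = _ := by ring

end counting

section construction

variable {t m : ℕ}

/-- ground set -/
abbrev Gr (t m : ℕ) : Type := Fin (m + 2) × Fin t

/-- The points of the ground set `Y`. -/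
abbrev Pt (t m : ℕ) : Type := Fin t × Fin (m + 2)

/-- The part of index `x` for a family of permutations. -/
def part (σ : Fin (m + 2) → Equiv.Perm (Pt t m)) (x : Gr t m) : Finset (Pt t m) :=
  univ.filter fun y => (σ x.1 y).1 = x.2

theorem card_part (σ : Fin (m + 2) → Equiv.Perm (Pt t m)) (x : Gr t m) :
    (part σ x).card = m + 2 := by
  classical
  have : part σ x = (univ.filter fun y : Pt t m => y.1 = x.2).map (σ x.1).symm.toEmbedding := by
    ext y
    simp only [part, mem_filter, mem_univ, true_and, mem_map, Equiv.coe_toEmbedding]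
    constructor
    · intro h
      exact ⟨σ x.1 y, h, by simp⟩
    · rintro ⟨z, hz, rfl⟩
      simpa using hz
  rw [this, card_map]
  have h2 : (univ.filter fun y : Pt t m => y.1 = x.2) = {x.2} ×ˢ (univ : Finset (Fin (m + 2))) := by
    ext ⟨a, b⟩
    simp [eq_comm]
  rw [h2]
  simp

theorem card_parts_containing (σ : Fin (m + 2) → Equiv.Perm (Pt t m)) (y : Pt t m) :
    (univ.filter fun x : Gr t m => y ∈ part σ x).card = m + 2 := by
  classical
  have : (univ.filter fun x : Gr t m => y ∈ part σ x) =
      (univ : Finset (Fin (m + 2))).map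
        ⟨fun i => ((i, (σ i y).1) : Gr t m), fun i j h => (Prod.mk.inj h).1⟩ := by
    ext x
    simp only [part, mem_filter, mem_univ, true_and, mem_map, Function.Embedding.coeFn_mk]
    constructor
    · intro h
      exact ⟨x.1, Prod.ext rfl h⟩
    · rintro ⟨i, rfl⟩
      rfl
  rw [this, card_map]
  simp

/-- Hall: a system of distinct representatives of the parts. -/
theorem exists_sdr (σ : Fin (m + 2) → Equiv.Perm (Pt t m)) :
    ∃ φ : Gr t m → Pt t m, Function.Bijective φ ∧ ∀ x, φ x ∈ part σ x := by
  classical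
  have hall : ∀ s : Finset (Gr t m), s.card ≤ (s.biUnion (part σ)).card := by
    intro s
    have h1 : ∑ x ∈ s, ((s.biUnion (part σ)).filter fun y => y ∈ part σ x).card =
        s.card * (m + 2) := by
      have : ∀ x ∈ s, ((s.biUnion (part σ)).filter fun y => y ∈ part σ x).card = m + 2 := by
        intro x hx
        rw [Finset.filter_mem_eq_inter,
          Finset.inter_eq_right.mpr (Finset.subset_biUnion_of_mem (part σ) hx), card_part]
      rw [Finset.sum_congr rfl this]
      simp
    have h2 := Finset.sum_card_bipartiteAbove_eq_sum_card_bipartiteBelow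
      (s := s) (t := s.biUnion (part σ)) (fun x y => y ∈ part σ x)
    simp only [Finset.bipartiteAbove, Finset.bipartiteBelow] at h2
    rw [h1] at h2
    have h3 : ∑ y ∈ s.biUnion (part σ), (s.filter fun x => y ∈ part σ x).card ≤
        (s.biUnion (part σ)).card * (m + 2) := by
      rw [← smul_eq_mul, ← Finset.sum_const]
      apply Finset.sum_le_sum
      intro y _
      refine (Finset.card_le_card ?_).trans (card_parts_containing σ y).le
      intro x hx
      simp only [mem_filter, mem_univ, true_and] at hx ⊢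
      exact hx.2
    have h4 : s.card * (m + 2) ≤ (s.biUnion (part σ)).card * (m + 2) := h2 ▸ h3
    exact Nat.le_of_mul_le_mul_right h4 (by omega)
  obtain ⟨φ, hφ, hφ2⟩ := (Finset.all_card_le_biUnion_card_iff_exists_injective (part σ)).mp hall
  refine ⟨φ, ?_, hφ2⟩
  rw [Fintype.bijective_iff_injective_and_card]
  exact ⟨hφ, by simp [mul_comm]⟩

/-- The digraph of a family of partitions with a system of distinct representatives. -/
def dig (σ : Fin (m + 2) → Equiv.Perm (Pt t m)) (φ : Gr t m → Pt t m) : Digraph (Gr t m) :=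
  ⟨fun x x' => x ≠ x' ∧ φ x' ∈ part σ x⟩

theorem dig_regular (σ : Fin (m + 2) → Equiv.Perm (Pt t m)) (φ : Gr t m → Pt t m)
    (hφ : Function.Bijective φ) (hφ2 : ∀ x, φ x ∈ part σ x) :
    (∀ x, Set.ncard {w | (dig σ φ).Adj x w} = m + 1) ∧
    (∀ x, Set.ncard {w | (dig σ φ).Adj w x} = m + 1) := by
  classical
  constructor
  · intro x
    have h1 : {w | (dig σ φ).Adj x w} =
        ((univ.filter fun w => φ w ∈ part σ x).erase x : Finset (Gr t m)) := by
      ext w
      simp only [dig, Set.mem_ofPred_eq, coe_erase, coe_filter, mem_univ, true_and, Set.mem_sdiff,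
        Set.mem_singleton_iff]
      tauto
    rw [h1, Set.ncard_coe_finset, Finset.card_erase_of_mem (by simp [hφ2])]
    have h2 : (univ.filter fun w => φ w ∈ part σ x).card = (part σ x).card := by
      apply Finset.card_bij (fun w _ => φ w)
      · intro w hw; simpa using hw
      · intro a _ b _ h; exact hφ.1 h
      · intro y hy
        obtain ⟨w, rfl⟩ := hφ.2 y
        exact ⟨w, by simpa using hy, rfl⟩
    rw [h2, card_part]
    rfl
  · intro x
    have h1 : {w | (dig σ φ).Adj w x} =
        ((univ.filter fun w => φ x ∈ part σ w).erase x : Finset (Gr t m)) := by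
      ext w
      simp only [dig, Set.mem_ofPred_eq, coe_erase, coe_filter, mem_univ, true_and, Set.mem_sdiff,
        Set.mem_singleton_iff]
      tauto
    rw [h1, Set.ncard_coe_finset, Finset.card_erase_of_mem (by simp [hφ2]),
      card_parts_containing]
    rfl

/-- A set of points closed under the parts that meet it. -/
theorem dig_strong (σ : Fin (m + 2) → Equiv.Perm (Pt t m)) (φ : Gr t m → Pt t m)
    (hφ : Function.Bijective φ)
    (hconn : ∀ A : Finset (Pt t m), A.Nonempty →
      (∀ x, ∀ y ∈ part σ x, y ∈ A → ∀ z ∈ part σ x, z ∈ A) → A = univ)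
    (u v : Gr t m) : Relation.ReflTransGen (dig σ φ).Adj u v := by
  classical
  set R : Finset (Gr t m) := univ.filter fun w => Relation.ReflTransGen (dig σ φ).Adj u w with hR
  set A : Finset (Pt t m) := R.image φ with hA
  have huR : u ∈ R := by simp [hR, Relation.ReflTransGen.refl]
  have hclosed : ∀ x ∈ R, part σ x ⊆ A := by
    intro x hx y hy
    obtain ⟨w, rfl⟩ := hφ.2 y
    rw [hA, mem_image]
    refine ⟨w, ?_, rfl⟩
    by_cases hxw : x = w
    · exact hxw ▸ hx
    · simp only [hR, mem_filter, mem_univ, true_and] at hx ⊢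
      exact hx.tail ⟨hxw, hy⟩
  have hcardA : A.card = R.card := Finset.card_image_of_injective _ hφ.1
  -- counting
  have h1 : ∑ x ∈ R, (A.filter fun y => y ∈ part σ x).card = R.card * (m + 2) := by
    have : ∀ x ∈ R, (A.filter fun y => y ∈ part σ x).card = m + 2 := by
      intro x hx
      rw [Finset.filter_mem_eq_inter, Finset.inter_eq_right.mpr (hclosed x hx), card_part]
    rw [Finset.sum_congr rfl this]
    simp
  have h2 : ∑ x : Gr t m, (A.filter fun y => y ∈ part σ x).card = A.card * (m + 2) := by
    have h2' := Finset.sum_card_bipartiteAbove_eq_sum_card_bipartiteBelow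
      (s := (univ : Finset (Gr t m))) (t := A) (fun x y => y ∈ part σ x)
    simp only [Finset.bipartiteAbove, Finset.bipartiteBelow] at h2'
    rw [h2', Finset.sum_congr rfl (fun y _ => card_parts_containing σ y)]
    simp
  have h3 : ∀ x, x ∉ R → (A.filter fun y => y ∈ part σ x).card = 0 := by
    have h4 : ∑ x ∈ univ \ R, (A.filter fun y => y ∈ part σ x).card = 0 := by
      have := Finset.sum_sdiff (f := fun x => (A.filter fun y => y ∈ part σ x).card)
        (Finset.subset_univ R)
      rw [h1, h2, hcardA] at this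
      omega
    intro x hx
    rw [Finset.sum_eq_zero_iff] at h4
    exact h4 x (by simp [hx])
  have hAuniv : A = univ := by
    apply hconn A ⟨φ u, by rw [hA]; exact mem_image_of_mem _ huR⟩
    intro x y hy hyA z hz
    have hxR : x ∈ R := by
      by_contra hx
      have := h3 x hx
      rw [Finset.card_eq_zero] at this
      have h5 : y ∈ A.filter fun y => y ∈ part σ x := by simp [hyA, hy]
      rw [this] at h5
      simp at h5
    exact hclosed x hxR hz
  have hRuniv : R = univ := by
    rw [← Finset.card_eq_iff_eq_univ, ← hcardA, hAuniv, Finset.card_univ]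
    simp [mul_comm]
  have : v ∈ R := by rw [hRuniv]; exact mem_univ _
  simpa [hR] using this

theorem dig_gamma_le (σ : Fin (m + 2) → Equiv.Perm (Pt t m)) (φ : Gr t m → Pt t m) :
    gamma (dig σ φ) ≤ t := by
  classical
  have hle : gamma (dig σ φ) ≤
      ((univ : Finset (Fin t)).image fun j => ((0 : Fin (m + 2)), j)).card := by
    apply Nat.sInf_le
    refine ⟨_, rfl, ?_⟩
    intro v hv
    refine ⟨(0, (σ 0 (φ v)).1), by simp, ?_, ?_⟩
    · intro h
      apply hv
      rw [← h]
      simp
    · simp [part]
  refine hle.trans ?_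
  exact Finset.card_image_le.trans (by simp)

theorem dig_le_gamma_rev (σ : Fin (m + 2) → Equiv.Perm (Pt t m)) (φ : Gr t m → Pt t m)
    (hφ2 : ∀ x, φ x ∈ part σ x) (τ : ℕ)
    (hmiss : ∀ T : Finset (Pt t m), T.card ≤ τ → ∃ x, Disjoint (part σ x) T) :
    τ + 1 ≤ gamma (rev (dig σ φ)) := by
  classical
  by_contra hlt
  push Not at hlt
  have hne : {k | ∃ S : Finset (Gr t m), S.card = k ∧ Dominates (rev (dig σ φ)) S}.Nonempty :=
    ⟨(univ : Finset (Gr t m)).card, univ, rfl, fun v hv => absurd (mem_univ v) hv⟩
  obtain ⟨S, hS, hS2⟩ := Nat.sInf_mem hne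
  change S.card = gamma (rev (dig σ φ)) at hS
  obtain ⟨x, hx⟩ := hmiss (S.image φ) (Finset.card_image_le.trans (by omega))
  by_cases hxS : x ∈ S
  · exact (Finset.disjoint_left.mp hx) (hφ2 x) (mem_image_of_mem _ hxS)
  · obtain ⟨u, hu, hu2⟩ := hS2 x hxS
    exact (Finset.disjoint_left.mp hx) hu2.2 (mem_image_of_mem _ hu)

/-- The rotation of the first column. -/
def rot (t m : ℕ) [NeZero t] : Equiv.Perm (Pt t m) where
  toFun y := if y.2 = 0 then (y.1 + 1, y.2) else y
  invFun y := if y.2 = 0 then (y.1 - 1, y.2) else y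
  left_inv y := by
    by_cases h : y.2 = 0 <;> simp [h, Prod.ext_iff]
  right_inv y := by
    by_cases h : y.2 = 0 <;> simp [h, Prod.ext_iff]

open scoped Fin.NatCast Fin.CommRing in
theorem conn_of_rot [NeZero t] (σ : Fin (m + 2) → Equiv.Perm (Pt t m)) (h0 : σ 0 = 1)
    (h1 : σ 1 = rot t m) (A : Finset (Pt t m)) (hne : A.Nonempty)
    (hA : ∀ x, ∀ y ∈ part σ x, y ∈ A → ∀ z ∈ part σ x, z ∈ A) : A = univ := by
  classical
  have hblock : ∀ a b b', (a, b) ∈ A → ((a, b') : Pt t m) ∈ A := by
    intro a b b' h
    refine hA (0, a) (a, b) ?_ h (a, b') ?_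
    · simp [part, h0]
    · simp [part, h0]
  have hnext : ∀ a b b', (a, b) ∈ A → ((a + 1, b') : Pt t m) ∈ A := by
    intro a b b' h
    have h2 : ((a, 0) : Pt t m) ∈ A := hblock a b 0 h
    have h3 : ((a + 1, 1) : Pt t m) ∈ A := by
      refine hA (1, a + 1) (a, 0) ?_ h2 (a + 1, 1) ?_
      · simp [part, h1, rot]
      · simp [part, h1, rot]
    exact hblock _ _ _ h3
  obtain ⟨⟨a0, b0⟩, hab⟩ := hne
  have hall : ∀ (n : ℕ) b, ((a0 + (n : Fin t), b) : Pt t m) ∈ A := by
    intro n
    induction n with
    | zero => intro b; simpa using hblock a0 b0 b hab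
    | succ n ih =>
      intro b
      have := hnext _ b b (ih b)
      simpa [add_assoc] using this
  rw [Finset.eq_univ_iff_forall]
  rintro ⟨a, b⟩
  have := hall (a - a0).val b
  simpa using this

theorem construction (ht : 1 ≤ t) (τ : ℕ) (hτ : τ ≤ t * (m + 2))
    (h : (Nat.choose (t * (m + 2)) τ : ℝ) * (1 - pr (t * (m + 2)) (m + 2) τ) ^ m < 1) :
    ∃ D : Digraph (Gr t m), InClass (m + 1) D ∧ gamma D ≤ t ∧ τ + 1 ≤ gamma (rev D) := by
  classical
  have : NeZero t := ⟨by omega⟩
  have hcardY : Fintype.card (Pt t m) = t * (m + 2) := by simp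
  have hk : m + 2 ≤ Fintype.card (Pt t m) := by
    rw [hcardY]; exact Nat.le_mul_of_pos_left _ ht
  obtain ⟨A, hA, hA2⟩ := exists_sets (Y := Pt t m) (m + 2) τ hk m
  rw [hcardY] at hA2
  have hzero : ((powersetCard τ (univ : Finset (Pt t m))).filter
      fun T => ∀ i, ¬ Disjoint (A i) T).card = 0 := by
    have := hA2.trans_lt h
    exact Nat.lt_one_iff.mp (by exact_mod_cast this)
  -- permutations sending the `A i` to the block of index `0`
  have hperm : ∀ i, ∃ s : Equiv.Perm (Pt t m), ∀ y, y ∈ A i ↔ (s y).1 = 0 := by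
    intro i
    obtain ⟨s, hs⟩ := Equiv.Perm.exists_map_finset_eq (A i)
      (univ.filter fun y : Pt t m => y.1 = 0) (by
        rw [hA i]
        have := card_part (t := t) (m := m) (fun _ => 1) (0, 0)
        simpa [part] using this.symm)
    refine ⟨s, fun y => ?_⟩
    have : s y ∈ (A i).map s.toEmbedding ↔ y ∈ A i := by simp
    rw [← this, hs]
    simp
  choose s hs using hperm
  set σ : Fin (m + 2) → Equiv.Perm (Pt t m) :=
    Fin.cons 1 (Fin.cons (rot t m) s) with hσ
  have hσ0 : σ 0 = 1 := rfl
  have hσ1 : σ 1 = rot t m := rfl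
  have hσ2 : ∀ i : Fin m, σ i.succ.succ = s i := fun i => rfl
  obtain ⟨φ, hφ, hφ2⟩ := exists_sdr σ
  refine ⟨dig σ φ, ⟨fun v hv => hv.1 rfl, (dig_regular σ φ hφ hφ2).1, (dig_regular σ φ hφ hφ2).2,
    dig_strong σ φ hφ (conn_of_rot σ hσ0 hσ1)⟩, dig_gamma_le σ φ,
    dig_le_gamma_rev σ φ hφ2 τ ?_⟩
  intro T hT
  obtain ⟨T', hTT', -, hT'⟩ := Finset.exists_subsuperset_card_eq (Finset.subset_univ T) hT
    (by rw [Finset.card_univ, hcardY]; exact hτ)
  rw [Finset.card_eq_zero, Finset.filter_eq_empty_iff] at hzero
  have := hzero (x := T') (by simp [mem_powersetCard, hT'])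
  push Not at this
  obtain ⟨i, hi⟩ := this
  refine ⟨(i.succ.succ, 0), ?_⟩
  have hpart : part σ (i.succ.succ, 0) = A i := by
    ext y
    simp [part, hσ2, hs i y]
  rw [hpart]
  exact Finset.disjoint_of_subset_right hTT' hi

end construction

end Pool.Agent.Lib.MP_9a58dc_co
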