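import Mathlib
import Pool.Agent.Lib.MP_9a58dc_co.Defs

/-!
Upper bound `γ(D⁻)/γ(D) ≤ log (r+1) + 2` for every `r`-regular digraph (greedy argument).
-/

set_option autoImplicit false

namespace Pool.Agent.Lib.MP_9a58dc_co

open Finset

section cover

variable {V : Type} [Fintype V] [DecidableEq V]

/-- elements `v` whose set `N v` is not hit by `T`. -/
def uncovered (N : V → Finset V) (T : Finset V) : Finset V :=
  univ.filter fun v => ∀ u ∈ T, u ∉ N v

theorem greedy_step (N : V → Finset V) (k : ℕ) (hN : ∀ v, (N v).card = k) [Nonempty V]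
    (T : Finset V) : ∃ u : V,
      ((uncovered N (insert u T)).card : ℝ) ≤
        (uncovered N T).card * (1 - (k : ℝ) / Fintype.card V) := by
  classical
  set U := uncovered N T with hU
  -- double counting
  have hsum : ∑ u : V, (U.filter fun v => u ∈ N v).card = U.card * k := by
    have := Finset.sum_card_bipartiteAbove_eq_sum_card_bipartiteBelow (s := (univ : Finset V))
      (t := U) (fun u v => u ∈ N v)
    simp only [Finset.bipartiteAbove, Finset.bipartiteBelow] at this
    rw [this]
    have h2 : ∀ v ∈ U, (univ.filter fun u => u ∈ N v).card = k := by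
      intro v _
      rw [Finset.filter_mem_eq_inter, Finset.univ_inter, hN]
    rw [Finset.sum_congr rfl h2]
    simp
  have hcard : (0 : ℝ) < Fintype.card V := by exact_mod_cast Fintype.card_pos
  have : ∃ u : V, (U.card : ℝ) * k / Fintype.card V ≤ (U.filter fun v => u ∈ N v).card := by
    by_contra hcon
    push Not at hcon
    have h1 : ∑ u : V, ((U.filter fun v => u ∈ N v).card : ℝ) <
        ∑ _u : V, (U.card : ℝ) * k / Fintype.card V := by
      apply Finset.sum_lt_sum_of_nonempty univ_nonempty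
      intro u _
      exact hcon u
    rw [Finset.sum_const, Finset.card_univ, nsmul_eq_mul] at h1
    have h2 : (Fintype.card V : ℝ) * ((U.card : ℝ) * k / Fintype.card V) = U.card * k := by
      field_simp
    rw [h2] at h1
    have h3 : ∑ u : V, ((U.filter fun v => u ∈ N v).card : ℝ) = U.card * k := by
      exact_mod_cast hsum
    linarith
  obtain ⟨u, hu⟩ := this
  refine ⟨u, ?_⟩
  have hsub : uncovered N (insert u T) = U \ (U.filter fun v => u ∈ N v) := by
    ext v
    simp only [uncovered, hU, mem_filter, mem_univ, true_and, mem_insert, mem_sdiff, not_and]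
    constructor
    · intro h
      exact ⟨fun w hw => h w (Or.inr hw), fun _ => h u (Or.inl rfl)⟩
    · rintro ⟨h1, h2⟩ w (rfl | hw)
      · exact h2 h1
      · exact h1 w hw
  rw [hsub, Finset.card_sdiff_of_subset (Finset.filter_subset _ _),
    Nat.cast_sub (Finset.card_le_card (Finset.filter_subset _ _))]
  have : (U.card : ℝ) * (1 - (k : ℝ) / Fintype.card V) =
      U.card - (U.card : ℝ) * k / Fintype.card V := by ring
  rw [this]
  linarith

theorem greedy (N : V → Finset V) (k : ℕ) (hN : ∀ v, (N v).card = k) [Nonempty V] (m : ℕ) :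
    ∃ T : Finset V, T.card ≤ m ∧
      ((uncovered N T).card : ℝ) ≤ Fintype.card V * (1 - (k : ℝ) / Fintype.card V) ^ m := by
  induction m with
  | zero =>
    refine ⟨∅, by simp, ?_⟩
    simp only [pow_zero, mul_one, Nat.cast_le]
    exact Finset.card_le_univ _
  | succ m ih =>
    obtain ⟨T, hT, hT2⟩ := ih
    obtain ⟨u, hu⟩ := greedy_step N k hN T
    refine ⟨insert u T, (Finset.card_insert_le _ _).trans (by omega), hu.trans ?_⟩
    have hk : (k : ℝ) / Fintype.card V ≤ 1 := by
      have : k ≤ Fintype.card V := by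
        rw [← hN (Classical.arbitrary V)]; exact Finset.card_le_univ _
      have hc : (0 : ℝ) < Fintype.card V := by exact_mod_cast Fintype.card_pos
      rw [div_le_one hc]; exact_mod_cast this
    calc ((uncovered N T).card : ℝ) * (1 - (k : ℝ) / Fintype.card V)
        ≤ (Fintype.card V * (1 - (k : ℝ) / Fintype.card V) ^ m) *
          (1 - (k : ℝ) / Fintype.card V) :=
          mul_le_mul_of_nonneg_right hT2 (by linarith)
      _ = Fintype.card V * (1 - (k : ℝ) / Fintype.card V) ^ (m + 1) := by ring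

/-- There is a set hitting every `N v` of size at most `(n/k) (log k + 1) + 1`. -/
theorem exists_cover (N : V → Finset V) (k : ℕ) (hk : 1 ≤ k) (hN : ∀ v, (N v).card = k)
    (hself : ∀ v, v ∈ N v) [Nonempty V] :
    ∃ T : Finset V, (∀ v, ∃ u ∈ T, u ∈ N v) ∧
      (T.card : ℝ) ≤ (Fintype.card V : ℝ) / k * (Real.log k + 1) + 1 := by
  set n : ℝ := ((Fintype.card V : ℕ) : ℝ) with hn
  have hn0 : 0 < n := by rw [hn]; exact_mod_cast Fintype.card_pos
  have hk0 : (0 : ℝ) < k := by exact_mod_cast hk
  have hkn : (k : ℝ) ≤ n := by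
    rw [hn]
    have : k ≤ Fintype.card V := by
      rw [← hN (Classical.arbitrary V)]; exact Finset.card_le_univ _
    exact_mod_cast this
  have hlog : 0 ≤ Real.log k := Real.log_nonneg (by exact_mod_cast hk)
  obtain ⟨T, hT, hT2⟩ := greedy N k hN ⌈n / k * Real.log k⌉₊
  rw [← hn] at hT2
  refine ⟨T ∪ uncovered N T, ?_, ?_⟩
  · intro v
    by_cases hv : v ∈ uncovered N T
    · exact ⟨v, mem_union_right _ hv, hself v⟩
    · simp only [uncovered, mem_filter, mem_univ, true_and, not_forall, not_not] at hv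
      obtain ⟨u, hu, hu2⟩ := hv
      exact ⟨u, mem_union_left _ hu, hu2⟩
  · have h1 : ((T ∪ uncovered N T).card : ℝ) ≤ T.card + (uncovered N T).card := by
      exact_mod_cast Finset.card_union_le _ _
    have h2 : (T.card : ℝ) ≤ n / k * Real.log k + 1 := by
      have : (T.card : ℝ) ≤ (⌈n / k * Real.log k⌉₊ : ℝ) := by exact_mod_cast hT
      refine this.trans (Nat.ceil_lt_add_one (by positivity)).le
    have h3 : ((uncovered N T).card : ℝ) ≤ n / k := by
      refine hT2.trans ?_
      have h4 : (1 - (k : ℝ) / n) ^ ⌈n / k * Real.log k⌉₊ ≤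
          Real.exp (-(k / n)) ^ ⌈n / k * Real.log k⌉₊ := by
        apply pow_le_pow_left₀
        · rw [sub_nonneg, div_le_one hn0]; exact hkn
        · have := Real.add_one_le_exp (-(k / n : ℝ)); linarith
      have h5 : Real.exp (-(k / n)) ^ ⌈n / k * Real.log k⌉₊ ≤ (k : ℝ)⁻¹ := by
        rw [← Real.exp_nat_mul]
        have h6 : n / k * Real.log k ≤ (⌈n / k * Real.log k⌉₊ : ℝ) := Nat.le_ceil _
        have h7 : (⌈n / k * Real.log k⌉₊ : ℝ) * -(k / n) ≤ - Real.log k := by
          have h8 : n / k * Real.log k * (k / n) = Real.log k := by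
            field_simp
          have h9 : n / k * Real.log k * (k / n) ≤ (⌈n / k * Real.log k⌉₊ : ℝ) * (k / n) :=
            mul_le_mul_of_nonneg_right h6 (by positivity)
          linarith
        calc Real.exp ((⌈n / k * Real.log k⌉₊ : ℝ) * -(k / n)) ≤ Real.exp (- Real.log k) :=
              Real.exp_le_exp.mpr h7
          _ = (k : ℝ)⁻¹ := by rw [Real.exp_neg, Real.exp_log hk0]
      calc n * (1 - (k : ℝ) / n) ^ ⌈n / k * Real.log k⌉₊ ≤ n * (k : ℝ)⁻¹ :=
            mul_le_mul_of_nonneg_left (h4.trans h5) hn0.le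
        _ = n / k := by rw [div_eq_mul_inv]
    have h10 : n / k * (Real.log k + 1) + 1 = n / k * Real.log k + 1 + n / k := by ring
    linarith

end cover

/-- closed out-neighbourhood -/
noncomputable def clNbr {V : Type} [Fintype V] [DecidableEq V] (D : Digraph V) (v : V) :
    Finset V := by
  classical exact insert v (univ.filter fun w => D.Adj v w)

theorem card_clNbr {V : Type} [Fintype V] [DecidableEq V] {r : ℕ} {D : Digraph V}
    (hD : InClass r D) (v : V) : (clNbr D v).card = r + 1 := by
  classical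
  unfold clNbr
  rw [Finset.card_insert_of_notMem (by simp [hD.loopless v])]
  congr 1
  rw [← hD.outdeg v, Set.ncard_eq_toFinset_card']
  congr 1
  ext w
  simp

theorem gamma_rev_le {V : Type} [Fintype V] [Nonempty V] {r : ℕ} {D : Digraph V}
    (hD : InClass r D) :
    (gamma (rev D) : ℝ) ≤ (Fintype.card V : ℝ) / (r + 1 : ℕ) * (Real.log (r + 1 : ℕ) + 1) + 1 := by
  classical
  obtain ⟨T, hT, hT2⟩ := exists_cover (clNbr D) (r + 1) (by omega) (card_clNbr hD)
    (fun v => by simp [clNbr])
  refine le_trans ?_ hT2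
  have : gamma (rev D) ≤ T.card := by
    apply Nat.sInf_le
    refine ⟨T, rfl, ?_⟩
    intro v hv
    obtain ⟨u, hu, hu2⟩ := hT v
    refine ⟨u, hu, ?_⟩
    simp only [clNbr, mem_insert, mem_filter, mem_univ, true_and] at hu2
    rcases hu2 with h | h
    · subst h; exact absurd hu hv
    · exact h
  exact_mod_cast this

theorem exists_gamma {V : Type} [Fintype V] (D : Digraph V) :
    ∃ S : Finset V, S.card = gamma D ∧ Dominates D S := by
  classical
  have : {m | ∃ S : Finset V, S.card = m ∧ Dominates D S}.Nonempty :=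
    ⟨(univ : Finset V).card, univ, rfl, fun v hv => absurd (mem_univ v) hv⟩
  exact Nat.sInf_mem this

theorem card_le_gamma {V : Type} [Fintype V] {r : ℕ} {D : Digraph V} (hD : InClass r D) :
    Fintype.card V ≤ gamma D * (r + 1) := by
  classical
  obtain ⟨S, hS, hS2⟩ := exists_gamma D
  have : (univ : Finset V) ⊆ S.biUnion (clNbr D) := by
    intro v _
    rw [mem_biUnion]
    by_cases hv : v ∈ S
    · exact ⟨v, hv, by simp [clNbr]⟩
    · obtain ⟨u, hu, hu2⟩ := hS2 v hv
      exact ⟨u, hu, by simp [clNbr, hu2]⟩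
  calc Fintype.card V = (univ : Finset V).card := rfl
    _ ≤ (S.biUnion (clNbr D)).card := Finset.card_le_card this
    _ ≤ ∑ u ∈ S, (clNbr D u).card := Finset.card_biUnion_le
    _ = gamma D * (r + 1) := by
      rw [Finset.sum_congr rfl (fun u _ => card_clNbr hD u)]
      simp [hS]

theorem ratio_le {V : Type} [Finite V] [Nonempty V] {r : ℕ} {D : Digraph V}
    (hD : InClass r D) :
    (gamma (rev D) : ℝ) / (gamma D : ℝ) ≤ Real.log (r + 1 : ℕ) + 2 := by
  classical
  have := Fintype.ofFinite V
  have h1 := gamma_rev_le hD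
  have h2 := card_le_gamma hD
  set n : ℝ := ((Fintype.card V : ℕ) : ℝ) with hn
  have hn0 : 0 < n := by rw [hn]; exact_mod_cast Fintype.card_pos
  have hk0 : (0 : ℝ) < (r + 1 : ℕ) := by positivity
  have hkn : ((r + 1 : ℕ) : ℝ) ≤ n := by
    rw [hn]
    have : r + 1 ≤ Fintype.card V := by
      rw [← card_clNbr hD (Classical.arbitrary V)]; exact Finset.card_le_univ _
    exact_mod_cast this
  have h3 : n / (r + 1 : ℕ) ≤ gamma D := by
    rw [div_le_iff₀ hk0, hn]; exact_mod_cast h2
  have h4 : 1 ≤ n / (r + 1 : ℕ) := by rwa [le_div_iff₀ hk0, one_mul]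
  have hg : (0 : ℝ) < gamma D := by linarith
  rw [div_le_iff₀ hg]
  have hlog : 0 ≤ Real.log (r + 1 : ℕ) := Real.log_nonneg (by exact_mod_cast Nat.succ_pos r)
  calc (gamma (rev D) : ℝ) ≤ n / (r + 1 : ℕ) * (Real.log (r + 1 : ℕ) + 1) + 1 := h1
    _ ≤ gamma D * (Real.log (r + 1 : ℕ) + 1) + gamma D := by
      have := mul_le_mul_of_nonneg_right h3 (by linarith : 0 ≤ Real.log (r + 1 : ℕ) + 1)
      linarith
    _ = (Real.log (r + 1 : ℕ) + 2) * gamma D := by ring

theorem bddAbove_ratios (r : ℕ) : BddAbove (ratios r) := by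
  refine ⟨Real.log (r + 1 : ℕ) + 2, ?_⟩
  rintro x ⟨V, hV, hV2, D, hD, rfl⟩
  exact ratio_le hD

end Pool.Agent.Lib.MP_9a58dc_co
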