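import Mathlib
import Pool.Agent.Lib.MP_9a58dc_co.Upper
import Pool.Agent.Lib.MP_9a58dc_co.Lower

/-!
Choice of parameters.
-/

set_option autoImplicit false

namespace Pool.Agent.Lib.MP_9a58dc_co

open Real

theorem choose_step (N k : ℕ) (hN : 1 ≤ N) (hkN : k ≤ N) :
    (Nat.choose (N - 1) k : ℝ) = Nat.choose N k * (1 - (k : ℝ) / N) := by
  obtain ⟨M, rfl⟩ : ∃ M, N = M + 1 := ⟨N - 1, by omega⟩
  have h := Nat.choose_mul_succ_eq M k
  have h2 : (Nat.choose M k : ℝ) * (M + 1) = Nat.choose (M + 1) k * ((M : ℝ) + 1 - k) := by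
    have : ((M + 1 - k : ℕ) : ℝ) = (M : ℝ) + 1 - k := by
      rw [Nat.cast_sub hkN]; push_cast; ring
    rw [← this]
    exact_mod_cast h
  simp only [Nat.add_sub_cancel]
  push_cast
  have hM : ((M : ℝ) + 1) ≠ 0 := by positivity
  field_simp
  linarith

theorem choose_sub_ge (t k τ : ℕ) (ht : 3 ≤ t) (hk : 1 ≤ k) (hτ : τ ≤ k) :
    (Nat.choose (t * k) k : ℝ) * exp (-(τ : ℝ) / (t - 2)) ≤ Nat.choose (t * k - τ) k := by
  have ht' : (3 : ℝ) ≤ t := by exact_mod_cast ht
  have hk' : (1 : ℝ) ≤ k := by exact_mod_cast hk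
  induction τ with
  | zero => simp
  | succ τ ih =>
    have ih' := ih (by omega)
    have hle : τ + 1 ≤ t * k := hτ.trans (Nat.le_mul_of_pos_left _ (by omega))
    have hk2 : k ≤ t * k - τ := by
      have : 2 * k ≤ t * k := Nat.mul_le_mul_right k (by omega)
      omega
    have hstep := choose_step (t * k - τ) k (by omega) hk2
    rw [show t * k - (τ + 1) = t * k - τ - 1 by omega, hstep]
    have hcast : ((t * k - τ : ℕ) : ℝ) = (t : ℝ) * k - τ := by
      rw [Nat.cast_sub (by omega)]; push_cast; ring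
    have hτk : (τ : ℝ) ≤ k := by exact_mod_cast (by omega : τ ≤ k)
    have hden : ((t : ℝ) - 1) * k ≤ (t : ℝ) * k - τ := by nlinarith
    have hden0 : 0 < ((t : ℝ) - 1) * k := by
      apply mul_pos <;> linarith
    have h1 : (k : ℝ) / ((t : ℝ) * k - τ) ≤ 1 / ((t : ℝ) - 1) := by
      rw [div_le_div_iff₀ (by linarith) (by linarith)]
      nlinarith
    have h2 : exp (-(1 : ℝ) / (t - 2)) ≤ 1 - 1 / ((t : ℝ) - 1) := by
      have h3 : (1 : ℝ) - 1 / ((t : ℝ) - 1) = ((t : ℝ) - 2) / (t - 1) := by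
        have : (t : ℝ) - 1 ≠ 0 := by linarith
        field_simp; ring
      rw [h3]
      have h4 : ((t : ℝ) - 1) / (t - 2) ≤ exp (1 / ((t : ℝ) - 2)) := by
        have h5 : ((t : ℝ) - 1) / (t - 2) = 1 / ((t : ℝ) - 2) + 1 := by
          have : (t : ℝ) - 2 ≠ 0 := by linarith
          field_simp; ring
        rw [h5]
        exact Real.add_one_le_exp _
      have h6 : exp (-(1 : ℝ) / (t - 2)) = (exp (1 / ((t : ℝ) - 2)))⁻¹ := by
        rw [← Real.exp_neg]; congr 1; ring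
      rw [h6]
      have h7 : ((t : ℝ) - 2) / (t - 1) = (((t : ℝ) - 1) / (t - 2))⁻¹ := by
        rw [inv_div]
      rw [h7]
      exact inv_anti₀ (by apply div_pos <;> linarith) h4
    have h8 : exp (-((τ + 1 : ℕ) : ℝ) / (t - 2)) =
        exp (-(τ : ℝ) / (t - 2)) * exp (-(1 : ℝ) / (t - 2)) := by
      rw [← Real.exp_add]; congr 1; push_cast; ring
    rw [h8, ← mul_assoc, hcast]
    apply mul_le_mul ih' _ (exp_pos _).le (by positivity)
    linarith

theorem pr_ge (t k τ : ℕ) (ht : 3 ≤ t) (hk : 1 ≤ k) (hτ : τ ≤ k) :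
    exp (-(τ : ℝ) / (t - 2)) ≤ pr (t * k) k τ := by
  have hC : (0 : ℝ) < Nat.choose (t * k) k := by
    exact_mod_cast Nat.choose_pos (Nat.le_mul_of_pos_left _ (by omega))
  unfold pr
  rw [le_div_iff₀ hC, mul_comm]
  exact choose_sub_ge t k τ ht hk hτ

/-- The numerical condition. -/
theorem condition (m : ℕ) (L : ℝ) (hL : L = log (m + 2 : ℕ)) (h20 : 20 ≤ L) (s : ℝ)
    (hs : s = L - 3 * log L - 6) :
    (Nat.choose (⌈L⌉₊ * (m + 2)) ⌊⌈L⌉₊ * s⌋₊ : ℝ) *
      (1 - pr (⌈L⌉₊ * (m + 2)) (m + 2) ⌊⌈L⌉₊ * s⌋₊) ^ m < 1 ∧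
    ⌊⌈L⌉₊ * s⌋₊ ≤ ⌈L⌉₊ * (m + 2) := by
  set t := ⌈L⌉₊ with ht
  set k : ℕ := m + 2 with hk
  set τ := ⌊t * s⌋₊ with hτ
  have hL0 : 0 < L := by linarith
  have htL : L ≤ t := Nat.le_ceil _
  have htL' : (t : ℝ) < L + 1 := Nat.ceil_lt_add_one hL0.le
  have hk0 : (0 : ℝ) < k := by positivity
  have hexpL : exp L = k := by rw [hL, Real.exp_log hk0]
  -- bounds on log L
  have hlogL : log L ≤ L / 4 := by
    -- log L = 2 log (sqrt L) .. use log x ≤ x/4 for x ≥ 20 through exp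
    have h1 : L ≤ exp (L / 4) := by
      have h2 : 1 + L / 8 + (L / 8) ^ 2 / 2 ≤ exp (L / 8) :=
        Real.quadratic_le_exp_of_nonneg (by linarith)
      have h3 : exp (L / 4) = exp (L / 8) * exp (L / 8) := by
        rw [← Real.exp_add]; congr 1; ring
      rw [h3]
      have h4 : (1 + L / 8 + (L / 8) ^ 2 / 2) * (1 + L / 8 + (L / 8) ^ 2 / 2) ≤
          exp (L / 8) * exp (L / 8) :=
        mul_le_mul h2 h2 (by positivity) (exp_pos _).le
      nlinarith [sq_nonneg (L - 20), sq_nonneg (L / 8)]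
    calc log L ≤ log (exp (L / 4)) := Real.log_le_log hL0 h1
      _ = L / 4 := Real.log_exp _
  have hlogL0 : 0 ≤ log L := Real.log_nonneg (by linarith)
  have hsL : s ≤ L := by rw [hs]; linarith
  have hs0 : 0 < s := by
    rw [hs]
    -- L - 3/4 L - 6 <0 possible at 20: use better bound
    have h1 : log L ≤ 3 + (L - 20) / 20 := by
      have h2 : log L = log 20 + log (L / 20) := by
        rw [← Real.log_mul (by norm_num) (by positivity)]
        congr 1; field_simp
      have h3 : log (L / 20) ≤ L / 20 - 1 := Real.log_le_sub_one_of_pos (by positivity)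
      have h4 : log 20 ≤ 3 := by
        rw [Real.log_le_iff_le_exp (by norm_num)]
        have : (2.7182818283 : ℝ) < exp 1 := Real.exp_one_gt_d9
        have h5 : exp 3 = exp 1 ^ 3 := by rw [← Real.exp_nat_mul]; norm_num
        rw [h5]
        calc (20 : ℝ) ≤ 2.7182818283 ^ 3 := by norm_num
          _ ≤ exp 1 ^ 3 := pow_le_pow_left₀ (by norm_num) this.le 3
      rw [h2]; linarith
    linarith
  have hτle : (τ : ℝ) ≤ t * s := Nat.floor_le (by positivity)
  have hexpge : (1 + L / 2 + (L / 2) ^ 2 / 2) ^ 2 ≤ k := by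
    rw [← hexpL]
    have h2 : 1 + L / 2 + (L / 2) ^ 2 / 2 ≤ exp (L / 2) :=
      Real.quadratic_le_exp_of_nonneg (by linarith)
    have h3 : exp L = exp (L / 2) ^ 2 := by
      rw [← Real.exp_nat_mul]; congr 1; push_cast; ring
    rw [h3]
    exact pow_le_pow_left₀ (by positivity) h2 2
  have hk4 : (4 : ℝ) ≤ k := by nlinarith [sq_nonneg (L / 2)]
  have hts : (t : ℝ) * s ≤ (L + 1) * L :=
    mul_le_mul htL'.le hsL hs0.le (by linarith)
  have hτk : τ ≤ k := by
    have h1 : (t : ℝ) * s ≤ k := by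
      refine hts.trans (le_trans ?_ hexpge)
      nlinarith [sq_nonneg (L / 2), mul_pos hL0 hL0]
    exact_mod_cast hτle.trans h1
  have ht3 : 3 ≤ t := by
    have : (20 : ℝ) ≤ t := h20.trans htL
    have : 20 ≤ t := by exact_mod_cast this
    omega
  have ht20 : (20 : ℝ) ≤ t := h20.trans htL
  have hp := pr_ge t k τ ht3 (by omega) hτk
  set p := pr (t * k) k τ with hpdef
  have hp1 : p ≤ 1 := pr_le_one _ _ _ (Nat.le_mul_of_pos_left _ (by omega))
  have hexp3 : (20 : ℝ) ≤ exp 3 := by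
    have : (2.7182818283 : ℝ) < exp 1 := Real.exp_one_gt_d9
    have h5 : exp 3 = exp 1 ^ 3 := by rw [← Real.exp_nat_mul]; norm_num
    rw [h5]
    calc (20 : ℝ) ≤ 2.7182818283 ^ 3 := by norm_num
      _ ≤ exp 1 ^ 3 := pow_le_pow_left₀ (by norm_num) this.le 3
  have hplow : L ^ 3 * 20 / k ≤ p := by
    have h1 : -(s + 3) ≤ -(τ : ℝ) / (t - 2) := by
      rw [neg_div, neg_le_neg_iff, div_le_iff₀ (by linarith)]
      nlinarith
    have h2 : exp (-(s + 3)) = L ^ 3 * exp 3 / k := by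
      rw [← hexpL, hs]
      have : -(L - 3 * log L - 6 + 3) = 3 * log L + 3 - L := by ring
      rw [this, Real.exp_sub, Real.exp_add]
      congr 2
      have : 3 * log L = ((3 : ℕ) : ℝ) * log L := by norm_num
      rw [this, Real.exp_nat_mul, Real.exp_log hL0]
    calc L ^ 3 * 20 / k ≤ L ^ 3 * exp 3 / k := by
          apply div_le_div_of_nonneg_right _ hk0.le
          exact mul_le_mul_of_nonneg_left hexp3 (by positivity)
      _ = exp (-(s + 3)) := h2.symm
      _ ≤ exp (-(τ : ℝ) / (t - 2)) := Real.exp_le_exp.mpr h1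
      _ ≤ p := hp
  have hm : (m : ℝ) = k - 2 := by rw [hk]; push_cast; ring
  have hpm : 10 * L ^ 3 ≤ p * m := by
    have h1 : (k : ℝ) / 2 ≤ m := by rw [hm]; linarith
    calc 10 * L ^ 3 = L ^ 3 * 20 / k * (k / 2) := by field_simp; ring
      _ ≤ p * m := mul_le_mul hplow h1 (by positivity) (le_trans (by positivity) hplow)
  refine ⟨?_, hτk.trans (Nat.le_mul_of_pos_left _ (by omega))⟩
  have htk0 : (0 : ℝ) < ((t * k : ℕ) : ℝ) := by
    have : 0 < t * k := Nat.mul_pos (by omega) (by omega)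
    exact_mod_cast this
  have hchoose : (Nat.choose (t * k) τ : ℝ) ≤ exp (τ * log ((t * k : ℕ) : ℝ)) := by
    rw [Real.exp_nat_mul, Real.exp_log htk0]
    exact_mod_cast Nat.choose_le_pow (t * k) τ
  have hpow : (1 - p) ^ m ≤ exp (-(p * m)) := by
    have h1 : 1 - p ≤ exp (-p) := by have := Real.add_one_le_exp (-p); linarith
    calc (1 - p) ^ m ≤ exp (-p) ^ m := pow_le_pow_left₀ (by linarith) h1 m
      _ = exp (-(p * m)) := by rw [← Real.exp_nat_mul]; congr 1; ring
  have hfinal : (τ : ℝ) * log ((t * k : ℕ) : ℝ) < p * m := by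
    have h1 : log ((t * k : ℕ) : ℝ) ≤ 2 * L := by
      push_cast
      rw [Real.log_mul (by linarith) (by linarith), ← hL]
      have h2 : log t ≤ t - 1 := Real.log_le_sub_one_of_pos (by linarith)
      linarith
    have h0 : 0 ≤ log ((t * k : ℕ) : ℝ) := Real.log_nonneg (by
      have : 1 ≤ t * k := Nat.mul_pos (by omega) (by omega)
      exact_mod_cast this)
    have h3 : (τ : ℝ) * log ((t * k : ℕ) : ℝ) ≤ ((L + 1) * L) * (2 * L) :=
      mul_le_mul (hτle.trans hts) h1 h0 (by positivity)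
    have h4 : ((L + 1) * L) * (2 * L) < 10 * L ^ 3 := by
      have : 0 < L ^ 2 := by positivity
      nlinarith
    linarith
  calc (Nat.choose (t * k) τ : ℝ) * (1 - p) ^ m
      ≤ exp (τ * log ((t * k : ℕ) : ℝ)) * exp (-(p * m)) :=
        mul_le_mul hchoose hpow (pow_nonneg (by linarith) _) (exp_pos _).le
    _ = exp (τ * log ((t * k : ℕ) : ℝ) - p * m) := by rw [← Real.exp_add]; congr 1
    _ < 1 := by
      rw [Real.exp_lt_one_iff]
      linarith

end Pool.Agent.Lib.MP_9a58dc_co
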