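import Pool.Agent.Lib.MP_9a58dc_co.Two

/-!
Bipartitions of `2D` points given by the linear forms on a binary vector space, and the digraphs
that come from them.
-/

set_option autoImplicit false

namespace Pool.Agent.Lib.MP_9a58dc_co.Cube

open Finset Pool.Agent.Lib.MP_9a58dc_co

section family

variable {m : ℕ}

/-- Two bipartitions that cross give connectivity. -/
theorem conn_of_cross (σ : Fin (m + 2) → Equiv.Perm (Pt 2 m)) (r : Fin (m + 2))
    (h : ∀ a b : Fin 2, ∃ y, (σ 0 y).1 = a ∧ (σ r y).1 = b)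
    (A : Finset (Pt 2 m)) (hne : A.Nonempty)
    (hA : ∀ x, ∀ y ∈ part σ x, y ∈ A → ∀ z ∈ part σ x, z ∈ A) : A = univ := by
  classical
  obtain ⟨y, hy⟩ := hne
  rw [Finset.eq_univ_iff_forall]
  intro z
  obtain ⟨w, hw1, hw2⟩ := h (σ 0 y).1 (σ r z).1
  have h1 : w ∈ A := hA (0, (σ 0 y).1) y (by simp [part]) hy w (by simp [part, hw1])
  exact hA (r, (σ r z).1) w (by simp [part, hw2]) h1 z (by simp [part])

/-- A family of at most `m+1` balanced sets such that every `k`-set lies on one side of one of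
them gives a digraph. -/
theorem digraph_of_family {ι : Type} [Fintype ι] (k : ℕ) (A : ι → Finset (Pt 2 m))
    (hA : ∀ i, (A i).card = m + 2) (hι : Fintype.card ι ≤ m + 1) (i0 : ι)
    (hcross : ∀ a : Fin 2, (∃ y, y ∈ A i0 ∧ y.1 = a) ∧ (∃ y, y ∉ A i0 ∧ y.1 = a))
    (hT : ∀ T : Finset (Pt 2 m), T.card ≤ k →
      (∀ x ∈ T, ∀ y ∈ T, x.1 = y.1) ∨ ∃ i, ∀ x ∈ T, ∀ y ∈ T, (x ∈ A i ↔ y ∈ A i)) :
    ∃ D : Digraph (Gr 2 m), InClass (m + 1) D ∧ gamma D ≤ 2 ∧ k + 1 ≤ gamma (rev D) := by
  classical
  choose s hs using fun i => Two.exists_perm (A i) (hA i)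
  obtain ⟨e⟩ : Nonempty (ι ↪ Fin (m + 1)) :=
    Function.Embedding.nonempty_of_card_le (by simpa using hι)
  obtain ⟨σ, hσ⟩ : ∃ σ : Fin (m + 2) → Equiv.Perm (Pt 2 m), σ =
    Fin.cons 1 (Function.extend e s (fun _ => 1)) := ⟨_, rfl⟩
  have hσ0 : σ 0 = 1 := by rw [hσ]; rfl
  have hσ2 : ∀ i : ι, σ (e i).succ = s i := by
    intro i
    rw [hσ]
    simp only [Fin.cons_succ]
    exact e.injective.extend_apply s _ i
  have hcr : ∀ a b : Fin 2, ∃ y, (σ 0 y).1 = a ∧ (σ (e i0).succ y).1 = b := by
    intro a b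
    have h01 : ∀ a : Fin 2, a = 0 ∨ a = 1 := by decide
    have hn0 : ∀ a : Fin 2, ¬ a = 0 → a = 1 := by decide
    rcases h01 b with rfl | rfl
    · obtain ⟨y, hy1, hy2⟩ := (hcross a).1
      refine ⟨y, by rw [hσ0]; exact hy2, ?_⟩
      rw [hσ2]
      exact (hs i0 y).1 hy1
    · obtain ⟨y, hy1, hy2⟩ := (hcross a).2
      refine ⟨y, by rw [hσ0]; exact hy2, ?_⟩
      rw [hσ2]
      exact hn0 _ fun h => hy1 ((hs i0 y).2 h)
  obtain ⟨φ, hφ, hφ2⟩ := exists_sdr σ
  refine ⟨dig σ φ, ⟨fun v hv => hv.1 rfl, (dig_regular σ φ hφ hφ2).1, (dig_regular σ φ hφ hφ2).2,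
    dig_strong σ φ hφ (conn_of_cross σ _ hcr)⟩, dig_gamma_le σ φ,
    dig_le_gamma_rev σ φ hφ2 k ?_⟩
  intro T hTk
  rcases T.eq_empty_or_nonempty with rfl | ⟨x0, hx0⟩
  · exact ⟨(0, 0), disjoint_empty_right _⟩
  have hne : ∀ x : Fin 2, x ≠ x + 1 := by decide
  have hfin : ∀ x y : Fin 2, (x = 0 ↔ y = 0) → x = y := by decide
  have key : ∃ i : Fin (m + 2), ∀ y ∈ T, (σ i y).1 = (σ i x0).1 := by
    rcases hT T hTk with h | ⟨i, hi⟩
    · refine ⟨0, fun y hy => ?_⟩
      rw [hσ0]
      exact h y hy x0 hx0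
    · refine ⟨(e i).succ, fun y hy => hfin _ _ ?_⟩
      rw [hσ2, ← hs i y, ← hs i x0]
      exact hi y hy x0 hx0
  obtain ⟨i, hi⟩ := key
  refine ⟨(i, (σ i x0).1 + 1), ?_⟩
  rw [Finset.disjoint_left]
  intro y hy hyT
  simp only [part, mem_filter, mem_univ, true_and] at hy
  rw [hi y hyT] at hy
  exact hne _ hy

end family

section forms

variable {n : ℕ}

/-- Binary vectors. -/
abbrev Vec (n : ℕ) : Type := Fin n → ZMod 2

/-- The value of a linear form. -/
def dot (g v : Vec n) : ZMod 2 := ∑ i, g i * v i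

theorem dot_sub_left (g h v : Vec n) : dot (g - h) v = dot g v - dot h v := by
  unfold dot
  rw [← Finset.sum_sub_distrib]
  apply Finset.sum_congr rfl
  intro i _
  rw [Pi.sub_apply, sub_mul]

theorem dot_add_right (g v w : Vec n) : dot g (v + w) = dot g v + dot g w := by
  unfold dot
  rw [← Finset.sum_add_distrib]
  apply Finset.sum_congr rfl
  intro i _
  rw [Pi.add_apply, mul_add]

theorem dot_single (g : Vec n) (i : Fin n) : dot g (Pi.single i 1) = g i := by
  unfold dot
  rw [Finset.sum_eq_single i]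
  · simp
  · intro j _ hj
    simp [hj]
  · simp

theorem two_cases : ∀ x : ZMod 2, x = 0 ∨ x = 1 := by decide

/-- Half of the vectors lie in the kernel of a non-zero form. -/
theorem half (g : Vec n) (hg : g ≠ 0) :
    (univ.filter fun v : Vec n => ¬ dot g v = 0).card =
      (univ.filter fun v : Vec n => dot g v = 0).card ∧
    2 * (univ.filter fun v : Vec n => dot g v = 0).card = 2 ^ n := by
  classical
  obtain ⟨i, hi⟩ : ∃ i, g i ≠ 0 := by
    by_contra h
    push Not at h
    exact hg (funext h)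
  have hi1 : g i = 1 := by
    rcases two_cases (g i) with h | h
    · exact absurd h hi
    · exact h
  have h1 : (univ.filter fun v : Vec n => ¬ dot g v = 0).card =
      (univ.filter fun v : Vec n => dot g v = 0).card := by
    apply Finset.card_bij (fun v _ => v + Pi.single i 1)
    · intro v hv
      simp only [mem_filter, mem_univ, true_and] at hv ⊢
      rw [dot_add_right, dot_single, hi1]
      rcases two_cases (dot g v) with h | h
      · exact absurd h hv
      · rw [h]; decide
    · intro a _ b _ h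
      exact add_right_cancel h
    · intro w hw
      refine ⟨w + Pi.single i 1, ?_, ?_⟩
      · simp only [mem_filter, mem_univ, true_and] at hw ⊢
        rw [dot_add_right, dot_single, hi1, hw]
        decide
      · rw [add_assoc]
        have : (Pi.single i 1 + Pi.single i 1 : Vec n) = 0 := by
          rw [← Pi.single_add]
          have h2 : (1 : ZMod 2) + 1 = 0 := by decide
          rw [h2, Pi.single_zero]
        rw [this, add_zero]
  refine ⟨h1, ?_⟩
  have h2 := Finset.card_filter_add_card_filter_not (s := (univ : Finset (Vec n)))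
    (fun v => dot g v = 0)
  rw [h1, card_univ] at h2
  have h3 : Fintype.card (Vec n) = 2 ^ n := by
    simp [ZMod.card]
  rw [h3] at h2
  omega

/-- The side of a point. -/
def cz (c : Fin 2) : ZMod 2 := if c = 0 then 0 else 1

/-- Every set of at most `n+1` points lies in an affine hyperplane. -/
theorem exists_form {m : ℕ} (l : Fin (m + 2) → Vec n) (T : Finset (Pt 2 m))
    (hT : T.card ≤ n + 1) :
    (∃ g : Vec n, ∀ x ∈ T, ∀ y ∈ T,
      cz x.1 + dot g (l x.2) = cz y.1 + dot g (l y.2)) ∨
    (∃ g : Vec n, g ≠ 0 ∧ ∀ x ∈ T, ∀ y ∈ T, dot g (l x.2) = dot g (l y.2)) := by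
  classical
  rcases T.eq_empty_or_nonempty with rfl | ⟨x0, hx0⟩
  · left
    exact ⟨0, by simp⟩
  have hcard : (T.erase x0).card ≤ n := by
    rw [card_erase_of_mem hx0]
    omega
  have hlt : Fintype.card ({x // x ∈ T.erase x0} → ZMod 2) < Fintype.card (ZMod 2 × Vec n) := by
    have h1 : Fintype.card ({x // x ∈ T.erase x0} → ZMod 2) = 2 ^ (T.erase x0).card := by
      rw [Fintype.card_fun, ZMod.card, Fintype.card_coe]
    have h2 : Fintype.card (ZMod 2 × Vec n) = 2 ^ (n + 1) := by
      rw [Fintype.card_prod, ZMod.card, Fintype.card_fun, ZMod.card, Fintype.card_fin, pow_succ,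
        mul_comm]
    rw [h1, h2]
    exact Nat.pow_lt_pow_right (by norm_num) (by omega)
  obtain ⟨p, p', hne, hpp⟩ := Fintype.exists_ne_map_eq_of_card_lt
    (fun (p : ZMod 2 × Vec n) (x : {x // x ∈ T.erase x0}) =>
      p.1 * (cz x.1.1 - cz x0.1) + (dot p.2 (l x.1.2) - dot p.2 (l x0.2))) hlt
  have hall : ∀ x ∈ T, (p.1 - p'.1) * (cz x.1 - cz x0.1) +
      (dot (p.2 - p'.2) (l x.2) - dot (p.2 - p'.2) (l x0.2)) = 0 := by
    intro x hx
    by_cases hxx : x = x0
    · rw [hxx]; ring
    · have h1 := congrFun hpp ⟨x, mem_erase.2 ⟨hxx, hx⟩⟩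
      simp only at h1
      rw [dot_sub_left, dot_sub_left]
      linear_combination h1
  rcases two_cases (p.1 - p'.1) with h | h
  · right
    refine ⟨p.2 - p'.2, ?_, ?_⟩
    · intro h2
      apply hne
      exact Prod.ext (sub_eq_zero.1 h) (sub_eq_zero.1 h2)
    · intro x hx y hy
      have hx' := hall x hx
      have hy' := hall y hy
      rw [h] at hx' hy'
      linear_combination hx' - hy'
  · left
    refine ⟨p.2 - p'.2, ?_⟩
    intro x hx y hy
    have hx' := hall x hx
    have hy' := hall y hy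
    rw [h] at hx' hy'
    linear_combination hx' - hy'

end forms

section rows

variable {m n c : ℕ}

/-- The combinatorial core. -/
theorem digraph_of_data (l : Fin (m + 2) → Vec n)
    (W V : Vec n → Fin c → Finset (Fin (m + 2)))
    (hWV : ∀ g i j, j ∉ V g i → (j ∈ W g i ↔ dot g (l j) = 0))
    (hcard : ∀ g i, g ≠ 0 → (W g i).card +
      (univ.filter fun j => dot g (l j) = 0).card = m + 2)
    (hc : (1 ≤ c ∧ ∀ g i, V g i = ∅) ∨
      (n + 1 ≤ c ∧ ∀ g i i', i ≠ i' → Disjoint (V g i) (V g i')))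
    (g1 : Vec n) (hg1 : g1 ≠ 0) (hz1 : ∃ j, dot g1 (l j) = 0) (hz2 : ∃ j, ¬ dot g1 (l j) = 0)
    (hrows : (2 ^ n - 1) * (c + 1) ≤ m + 1) :
    ∃ D : Digraph (Gr 2 m), InClass (m + 1) D ∧ gamma D ≤ 2 ∧ n + 1 + 1 ≤ gamma (rev D) := by
  classical
  obtain ⟨Z, hZ⟩ : ∃ Z : Vec n → Finset (Fin (m + 2)),
      Z = fun g => univ.filter fun j => dot g (l j) = 0 := ⟨_, rfl⟩
  have memZ : ∀ g j, j ∈ Z g ↔ dot g (l j) = 0 := by
    intro g j; rw [hZ]; simp
  have mem_two : ∀ (B B' : Finset (Fin (m + 2))) (x : Pt 2 m),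
      x ∈ Two.two B B' ↔ if x.1 = 0 then x.2 ∈ B else x.2 ∈ B' := by
    intro B B' x
    unfold Two.two
    rw [mem_filter]
    simp
  obtain ⟨A, hAdef⟩ : ∃ A : {g : Vec n // g ≠ 0} × Option (Fin c) → Finset (Pt 2 m),
      A = fun r => match r.2 with
        | none => Two.two (Z r.1.1) (Z r.1.1)ᶜ
        | some i => Two.two (W r.1.1 i) (Z r.1.1) := ⟨_, rfl⟩
  refine digraph_of_family (n + 1) A ?_ ?_ (⟨g1, hg1⟩, none) ?_ ?_
  · rintro ⟨⟨g, hg⟩, o⟩
    cases o with
    | none =>
      rw [hAdef]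
      simp only
      rw [Two.card_two, card_compl, Fintype.card_fin]
      have : (Z g).card ≤ m + 2 := by
        have := Finset.card_le_univ (Z g)
        simpa using this
      omega
    | some i =>
      rw [hAdef]
      simp only
      rw [Two.card_two]
      have := hcard g i hg
      rw [hZ]
      exact this
  · rw [Fintype.card_prod, Fintype.card_option, Fintype.card_fin]
    have h1 : Fintype.card {g : Vec n // g ≠ 0} = 2 ^ n - 1 := by
      rw [Fintype.card_subtype_compl, Fintype.card_subtype_eq, Fintype.card_fun, ZMod.card,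
        Fintype.card_fin]
    rw [h1]
    exact hrows
  · obtain ⟨j1, hj1⟩ := hz1
    obtain ⟨j2, hj2⟩ := hz2
    have hmem : ∀ x : Pt 2 m, x ∈ A (⟨g1, hg1⟩, none) ↔
        if x.1 = 0 then dot g1 (l x.2) = 0 else ¬ dot g1 (l x.2) = 0 := by
      intro x
      rw [hAdef]
      simp only
      rw [mem_two, mem_compl, memZ]
    have h01 : ∀ a : Fin 2, a = 0 ∨ a = 1 := by decide
    intro a
    rcases h01 a with rfl | rfl
    · exact ⟨⟨(0, j1), (hmem _).2 (by simpa using hj1), rfl⟩,
        ⟨(0, j2), fun h => hj2 (by simpa using (hmem _).1 h), rfl⟩⟩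
    · exact ⟨⟨(1, j2), (hmem _).2 (by simpa using hj2), rfl⟩,
        ⟨(1, j1), fun h => (show ¬ dot g1 (l j1) = 0 by simpa using (hmem _).1 h) hj1, rfl⟩⟩
  · intro T hT
    rcases exists_form l T hT with ⟨g, hg⟩ | ⟨g, hg0, hg⟩
    · by_cases hg0 : g = 0
      · left
        intro x hx y hy
        have h1 := hg x hx y hy
        have h2 : ∀ v : Vec n, dot (0 : Vec n) v = 0 := by
          intro v; unfold dot; simp
        rw [hg0, h2, h2, add_zero, add_zero] at h1
        have h3 : ∀ a b : Fin 2, cz a = cz b → a = b := by decide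
        exact h3 _ _ h1
      · right
        refine ⟨(⟨g, hg0⟩, none), ?_⟩
        have hmem : ∀ x : Pt 2 m, x ∈ A (⟨g, hg0⟩, none) ↔ cz x.1 + dot g (l x.2) = 0 := by
          intro x
          rw [hAdef]
          simp only
          rw [mem_two, mem_compl, memZ]
          have h01 : ∀ a : Fin 2, a = 0 ∨ a = 1 := by decide
          rcases h01 x.1 with h | h
          · rw [h]
            simp [cz]
          · rw [h]
            have h5 : cz 1 = 1 := by decide
            rw [h5]
            have h4 : ∀ z : ZMod 2, (¬ z = 0) ↔ (1 + z = 0) := by decide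
            simpa using h4 (dot g (l x.2))
        intro x hx y hy
        rw [hmem, hmem, hg x hx y hy]
    · by_cases hall : ∀ x ∈ T, x.1 = 0
      · left
        intro x hx y hy
        rw [hall x hx, hall y hy]
      · right
        push Not at hall
        obtain ⟨y1, hy1, hy1'⟩ := hall
        obtain ⟨T0, hT0⟩ : ∃ T0 : Finset (Pt 2 m), T0 = T.filter fun x => x.1 = 0 := ⟨_, rfl⟩
        have hT0card : T0.card ≤ n := by
          have h1 : T0 ⊂ T := by
            rw [hT0]
            exact Finset.filter_ssubset.2 ⟨y1, hy1, hy1'⟩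
          have := Finset.card_lt_card h1
          omega
        have hi : ∃ i : Fin c, ∀ x ∈ T, x.1 = 0 → x.2 ∉ V g i := by
          rcases hc with ⟨hc1, hV⟩ | ⟨hc1, hV⟩
          · exact ⟨⟨0, hc1⟩, fun x _ _ => by simp [hV]⟩
          · by_contra hcon
            push Not at hcon
            choose f hf1 hf2 hf3 using hcon
            have hinj : Function.Injective f := by
              intro i i' hii
              by_contra hne
              have := hV g i i' hne
              rw [Finset.disjoint_left] at this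
              exact this (hf3 i) (by rw [hii]; exact hf3 i')
            have h1 : (univ.image f).card = c := by
              rw [card_image_of_injective _ hinj, card_univ, Fintype.card_fin]
            have h2 : univ.image f ⊆ T0 := by
              intro x hx
              rw [mem_image] at hx
              obtain ⟨i, -, rfl⟩ := hx
              rw [hT0, mem_filter]
              exact ⟨hf1 i, hf2 i⟩
            have := card_le_card h2
            omega
        obtain ⟨i, hi⟩ := hi
        refine ⟨(⟨g, hg0⟩, some i), ?_⟩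
        have hmem : ∀ x ∈ T, (x ∈ A (⟨g, hg0⟩, some i) ↔ dot g (l x.2) = 0) := by
          intro x hx
          rw [hAdef]
          simp only
          rw [mem_two, memZ]
          split_ifs with h
          · exact hWV g i x.2 (hi x hx h)
          · exact Iff.rfl
        intro x hx y hy
        rw [hmem x hx, hmem y hy, hg x hx y hy]

end rows

section labels

variable {m n : ℕ}

/-- The labels. -/
noncomputable def lab (m n : ℕ) (j : Fin (m + 2)) : Vec n :=
  (Fintype.equivFinOfCardEq (show Fintype.card (Vec n) = 2 ^ n by simp [ZMod.card])).symm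
    ⟨j.val % 2 ^ n, Nat.mod_lt _ (by positivity)⟩

theorem fiber (v : Vec n) :
    (m + 2) / 2 ^ n ≤ (univ.filter fun j : Fin (m + 2) => lab m n j = v).card ∧
    (univ.filter fun j : Fin (m + 2) => lab m n j = v).card ≤ (m + 2) / 2 ^ n +
      (if (m + 2) % 2 ^ n = 0 then 0 else 1) := by
  classical
  obtain ⟨e, he⟩ : ∃ e : Vec n ≃ Fin (2 ^ n), e =
    Fintype.equivFinOfCardEq (show Fintype.card (Vec n) = 2 ^ n by simp [ZMod.card]) := ⟨_, rfl⟩
  have h1 : (univ.filter fun j : Fin (m + 2) => lab m n j = v).card =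
      (m + 2).count (fun x => x ≡ (e v).val [MOD 2 ^ n]) := by
    rw [Nat.count_eq_card_filter_range]
    apply Finset.card_bij (fun j _ => j.val)
    · intro j hj
      simp only [mem_filter, mem_univ, true_and, mem_range] at hj ⊢
      refine ⟨j.isLt, ?_⟩
      rw [← hj]
      unfold lab
      rw [← he, Equiv.apply_symm_apply]
      exact (Nat.mod_modEq _ _).symm
    · intro a _ b _ h
      exact Fin.ext h
    · intro x hx
      simp only [mem_filter, mem_range] at hx
      refine ⟨⟨x, hx.1⟩, ?_, rfl⟩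
      simp only [mem_filter, mem_univ, true_and]
      unfold lab
      rw [← he, Equiv.symm_apply_eq]
      apply Fin.ext
      have := hx.2
      unfold Nat.ModEq at this
      rw [Nat.mod_eq_of_lt (e v).isLt] at this
      exact this
  rw [h1, Nat.count_modEq_card _ (by positivity)]
  constructor
  · omega
  · split_ifs <;> omega

/-- Balance of the labels. -/
theorem balance (g : Vec n) (hg : g ≠ 0) :
    ∃ a b h : ℕ, (univ.filter fun j : Fin (m + 2) => dot g (lab m n j) = 0).card = a ∧
      (univ.filter fun j : Fin (m + 2) => ¬ dot g (lab m n j) = 0).card = b ∧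
      a + b = m + 2 ∧ 2 * h = 2 ^ n ∧ a ≤ b + h ∧ b ≤ a + h ∧
      (2 ^ n ∣ m + 2 → a = b) := by
  classical
  obtain ⟨hh1, hh2⟩ := half g hg
  obtain ⟨q, hq⟩ : ∃ q, q = (m + 2) / 2 ^ n := ⟨_, rfl⟩
  have hsum : ∀ P : ZMod 2 → Prop, [DecidablePred P] →
      (univ.filter fun j : Fin (m + 2) => P (dot g (lab m n j))).card =
      ∑ v ∈ univ.filter (fun v : Vec n => P (dot g v)),
        (univ.filter fun j : Fin (m + 2) => lab m n j = v).card := by
    intro P _
    rw [Finset.card_eq_sum_card_fiberwise (f := lab m n)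
      (t := univ.filter fun v : Vec n => P (dot g v))]
    · apply Finset.sum_congr rfl
      intro v hv
      congr 1
      ext j
      simp only [mem_filter, mem_univ, true_and] at hv ⊢
      constructor
      · exact fun h => h.2
      · intro h
        exact ⟨by rw [h]; exact hv, h⟩
    · intro j hj
      simpa using hj
  have hlow : ∀ P : ZMod 2 → Prop, [DecidablePred P] →
      (univ.filter (fun v : Vec n => P (dot g v))).card * q ≤
      (univ.filter fun j : Fin (m + 2) => P (dot g (lab m n j))).card := by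
    intro P _
    rw [hsum P, ← smul_eq_mul, ← Finset.sum_const]
    apply Finset.sum_le_sum
    intro v _
    rw [hq]
    exact (fiber v).1
  obtain ⟨ε, hε⟩ : ∃ ε : ℕ, ε = (if (m + 2) % 2 ^ n = 0 then 0 else 1) := ⟨_, rfl⟩
  have hε1 : ε ≤ 1 := by rw [hε]; split_ifs <;> omega
  have hup : ∀ P : ZMod 2 → Prop, [DecidablePred P] →
      (univ.filter fun j : Fin (m + 2) => P (dot g (lab m n j))).card ≤
      (univ.filter (fun v : Vec n => P (dot g v))).card * (q + ε) := by
    intro P _
    rw [hsum P, ← smul_eq_mul, ← Finset.sum_const]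
    apply Finset.sum_le_sum
    intro v _
    rw [hq, hε]
    exact (fiber v).2
  have l0 := hlow (fun z => z = 0)
  have u0 := hup (fun z => z = 0)
  have l1 := hlow (fun z => ¬ z = 0)
  have u1 := hup (fun z => ¬ z = 0)
  rw [hh1] at l1 u1
  obtain ⟨h, hh⟩ : ∃ h, h = (univ.filter fun v : Vec n => dot g v = 0).card := ⟨_, rfl⟩
  rw [← hh] at l0 u0 l1 u1 hh2
  have h3 : h * (q + ε) ≤ h * q + h := by
    rw [Nat.mul_add]
    have := Nat.mul_le_mul_left h hε1
    omega
  refine ⟨_, _, h, rfl, rfl, ?_, hh2, ?_, ?_, ?_⟩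
  · rw [Finset.card_filter_add_card_filter_not]
    simp
  · exact (u0.trans h3).trans (Nat.add_le_add_right l1 h)
  · exact (u1.trans h3).trans (Nat.add_le_add_right l0 h)
  · intro hdvd
    have hε0 : ε = 0 := by rw [hε, if_pos (Nat.mod_eq_zero_of_dvd hdvd)]
    have h4 : h * (q + ε) = h * q := by rw [hε0, Nat.add_zero]
    rw [h4] at u0 u1
    omega

/-- Disjoint subsets of a given size. -/
theorem exists_disj {α : Type} [DecidableEq α] (δ : ℕ) (c : ℕ) (S : Finset α)
    (h : c * δ ≤ S.card) :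
    ∃ V : Fin c → Finset α, (∀ i, V i ⊆ S ∧ (V i).card = δ) ∧
      ∀ i i', i ≠ i' → Disjoint (V i) (V i') := by
  induction c generalizing S with
  | zero => exact ⟨fun i => i.elim0, fun i => i.elim0, fun i => i.elim0⟩
  | succ c ih =>
    rw [Nat.succ_mul] at h
    obtain ⟨U, hU, hUc⟩ := Finset.exists_subset_card_eq (show δ ≤ S.card by omega)
    obtain ⟨V, hV1, hV2⟩ := ih (S \ U) (by
      rw [Finset.card_sdiff_of_subset hU, hUc]
      omega)
    refine ⟨Fin.cons U V, ?_, ?_⟩
    · intro i
      refine Fin.cases ?_ ?_ i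
      · exact ⟨hU, hUc⟩
      · intro j
        simp only [Fin.cons_succ]
        exact ⟨(hV1 j).1.trans Finset.sdiff_subset, (hV1 j).2⟩
    · intro i i'
      refine Fin.cases ?_ ?_ i
      · refine Fin.cases ?_ ?_ i'
        · intro h; exact absurd rfl h
        · intro j _
          simp only [Fin.cons_zero, Fin.cons_succ]
          exact Finset.disjoint_of_subset_right (hV1 j).1 Finset.disjoint_sdiff
      · intro j
        refine Fin.cases ?_ ?_ i'
        · intro _
          simp only [Fin.cons_zero, Fin.cons_succ]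
          exact (Finset.disjoint_of_subset_right (hV1 j).1 Finset.disjoint_sdiff).symm
        · intro j' hjj
          simp only [Fin.cons_succ]
          exact hV2 j j' (fun h => hjj (by rw [h]))

/-- The rows of a form, `c` copies. -/
theorem exists_rows (c : ℕ) (g : Vec n) (hg : g ≠ 0)
    (hsize : ∀ a b h : ℕ, a + b = m + 2 → 2 * h = 2 ^ n → a ≤ b + h → b ≤ a + h →
      (a ≥ b → c * (a - b) ≤ a) ∧ (b ≥ a → c * (b - a) ≤ b)) :
    ∃ W V : Fin c → Finset (Fin (m + 2)),
      (∀ i j, j ∉ V i → (j ∈ W i ↔ dot g (lab m n j) = 0)) ∧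
      (∀ i, (W i).card + (univ.filter fun j : Fin (m + 2) => dot g (lab m n j) = 0).card = m + 2) ∧
      (∀ i i', i ≠ i' → Disjoint (V i) (V i')) := by
  classical
  obtain ⟨a, b, h, ha, hb, hab, hh, h1, h2, -⟩ := balance (m := m) g hg
  obtain ⟨hs1, hs2⟩ := hsize a b h hab hh h1 h2
  obtain ⟨Z, hZ⟩ : ∃ Z : Finset (Fin (m + 2)), Z =
    univ.filter fun j : Fin (m + 2) => dot g (lab m n j) = 0 := ⟨_, rfl⟩
  have memZ : ∀ j, j ∈ Z ↔ dot g (lab m n j) = 0 := by intro j; rw [hZ]; simp
  rcases le_total b a with hle | hle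
  · obtain ⟨V, hV1, hV2⟩ := exists_disj (a - b) c Z (by rw [hZ, ha]; exact hs1 hle)
    refine ⟨fun i => Z \ V i, V, ?_, ?_, hV2⟩
    · intro i j hj
      rw [mem_sdiff, memZ]
      tauto
    · intro i
      rw [← hZ, Finset.card_sdiff_of_subset (hV1 i).1, (hV1 i).2]
      rw [hZ, ha]
      omega
  · obtain ⟨V, hV1, hV2⟩ := exists_disj (b - a) c
      (univ.filter fun j : Fin (m + 2) => ¬ dot g (lab m n j) = 0) (by rw [hb]; exact hs2 hle)
    refine ⟨fun i => Z ∪ V i, V, ?_, ?_, hV2⟩
    · intro i j hj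
      rw [mem_union, memZ]
      tauto
    · intro i
      have hdis : Disjoint Z (V i) := by
        rw [Finset.disjoint_left]
        intro j hj hj2
        have := (hV1 i).1 hj2
        rw [mem_filter] at this
        exact this.2 ((memZ j).1 hj)
      rw [← hZ, Finset.card_union_of_disjoint hdis, (hV1 i).2]
      rw [hZ, ha]
      omega

end labels

/-- The main construction. -/
theorem exists_digraph (m n : ℕ) (hn : 1 ≤ n)
    (h : (2 ^ n ∣ m + 2 ∧ 2 * 2 ^ n ≤ m + 2) ∨ (n + 2) * 2 ^ n ≤ m + 2 + (n + 1)) :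
    ∃ D : Digraph (Gr 2 m), InClass (m + 1) D ∧ gamma D ≤ 2 ∧ n + 2 ≤ gamma (rev D) := by
  classical
  have hpow : 1 ≤ 2 ^ n := Nat.one_le_two_pow
  have hnp : n + 1 ≤ 2 ^ n := Nat.lt_two_pow_self
  have hbig : 2 ^ n ≤ m + 2 := by
    rcases h with ⟨_, h⟩ | h
    · omega
    · have h1 : (n + 2) * 2 ^ n = n * 2 ^ n + 2 ^ n + 2 ^ n := by ring
      have h2 : n * 1 ≤ n * 2 ^ n := Nat.mul_le_mul_left n hpow
      omega
  obtain ⟨g1, hg1⟩ : ∃ g1 : Vec n, g1 ≠ 0 :=
    ⟨Pi.single ⟨0, hn⟩ 1, by simp⟩
  have hz : (∃ j, dot g1 (lab m n j) = 0) ∧ (∃ j, ¬ dot g1 (lab m n j) = 0) := by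
    obtain ⟨a, b, h', ha, hb, hab, hh, h1, h2, -⟩ := balance (m := m) g1 hg1
    constructor
    · have : 0 < (univ.filter fun j : Fin (m + 2) => dot g1 (lab m n j) = 0).card := by
        rw [ha]; omega
      obtain ⟨j, hj⟩ := Finset.card_pos.1 this
      exact ⟨j, by simpa using hj⟩
    · have : 0 < (univ.filter fun j : Fin (m + 2) => ¬ dot g1 (lab m n j) = 0).card := by
        rw [hb]; omega
      obtain ⟨j, hj⟩ := Finset.card_pos.1 this
      exact ⟨j, by simpa using hj⟩
  rcases h with ⟨hdvd, hle⟩ | hle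
  · refine digraph_of_data (c := 1) (lab m n)
      (fun g _ => univ.filter fun j => dot g (lab m n j) = 0) (fun _ _ => ∅) ?_ ?_
      (Or.inl ⟨le_rfl, fun _ _ => rfl⟩) g1 hg1 hz.1 hz.2 ?_
    · intro g i j _
      simp
    · intro g i hg
      obtain ⟨a, b, h, ha, hb, hab, hh, h1, h2, h3⟩ := balance (m := m) g hg
      rw [ha]
      have := h3 hdvd
      omega
    · omega
  · have hrows : ∀ g : Vec n, ∃ W V : Fin (n + 1) → Finset (Fin (m + 2)),
        (∀ i j, j ∉ V i → (j ∈ W i ↔ dot g (lab m n j) = 0)) ∧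
        (∀ i, g ≠ 0 → (W i).card +
          (univ.filter fun j : Fin (m + 2) => dot g (lab m n j) = 0).card = m + 2) ∧
        (∀ i i', i ≠ i' → Disjoint (V i) (V i')) := by
      intro g
      by_cases hg : g = 0
      · refine ⟨fun _ => univ, fun _ => ∅, ?_, ?_, ?_⟩
        · intro i j _
          rw [hg]
          simp [dot]
        · intro i h; exact absurd hg h
        · intro i i' _; exact disjoint_empty_left _
      · obtain ⟨W, V, h1, h2, h3⟩ := exists_rows (m := m) (n + 1) g hg (by
          intro a b h hab hh h1 h2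
          rw [← hh] at hle hnp
          constructor
          · intro hge
            obtain ⟨x, rfl⟩ := Nat.exists_eq_add_of_le hge
            have hx : x ≤ h := by omega
            have h5 : (n + 1) * x ≤ (n + 1) * h := Nat.mul_le_mul_left _ hx
            have h6 : b + x - b = x := by omega
            rw [h6]
            nlinarith
          · intro hge
            obtain ⟨x, rfl⟩ := Nat.exists_eq_add_of_le hge
            have hx : x ≤ h := by omega
            have h5 : (n + 1) * x ≤ (n + 1) * h := Nat.mul_le_mul_left _ hx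
            have h6 : a + x - a = x := by omega
            rw [h6]
            nlinarith)
        exact ⟨W, V, h1, fun i _ => h2 i, h3⟩
    choose W V h1 h2 h3 using hrows
    refine digraph_of_data (c := n + 1) (lab m n) W V h1 (fun g i hg => h2 g i hg)
      (Or.inr ⟨le_rfl, h3⟩) g1 hg1 hz.1 hz.2 ?_
    rw [Nat.sub_mul, one_mul]
    have h5 : 2 ^ n * (n + 1 + 1) = (n + 2) * 2 ^ n := by ring
    rw [h5]
    omega

end Pool.Agent.Lib.MP_9a58dc_co.Cube
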