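import Pool.Agent.Lib.MP_9a58dc_co.Upper

/-!
Digraphs given by the closed out-neighbourhoods (bit masks), checked by computation.
-/

set_option autoImplicit false

namespace Pool.Agent.Lib.MP_9a58dc_co.Explicit

open Finset Pool.Agent.Lib.MP_9a58dc_co

/-- No `k` positions below `n` meet all the masks in the list. -/
def nt (n : ℕ) : ℕ → List ℕ → Bool
  | 0, L => !L.isEmpty
  | k + 1, L => match L with
    | [] => false
    | e :: L' => (List.range n).all fun p =>
        !(e.testBit p) || nt n k (L'.filter fun f => !(f.testBit p))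

theorem nt_sound (n : ℕ) : ∀ (k : ℕ) (L : List ℕ), nt n k L = true →
    ∀ S : Finset (Fin n), S.card ≤ k → ¬ (∀ e ∈ L, ∃ p ∈ S, e.testBit p.val = true) := by
  classical
  intro k
  induction k with
  | zero =>
    intro L hL S hS hhit
    have hS0 : S = ∅ := Finset.card_eq_zero.1 (by omega)
    cases L with
    | nil => simp [nt] at hL
    | cons e L' =>
      obtain ⟨p, hp, -⟩ := hhit e (by simp)
      rw [hS0] at hp
      simp at hp
  | succ k ih =>
    intro L hL S hS hhit
    cases L with
    | nil => simp [nt] at hL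
    | cons e L' =>
      obtain ⟨p, hp, hpe⟩ := hhit e (by simp)
      unfold nt at hL
      simp only [List.all_eq_true, List.mem_range] at hL
      have h1 := hL p.val p.isLt
      rw [hpe] at h1
      simp only [Bool.not_true, Bool.false_or] at h1
      refine ih _ h1 (S.erase p) ?_ ?_
      · rw [card_erase_of_mem hp]
        omega
      · intro f hf
        rw [List.mem_filter] at hf
        obtain ⟨q, hq, hqf⟩ := hhit f (List.mem_cons_of_mem _ hf.1)
        refine ⟨q, mem_erase.2 ⟨?_, hq⟩, hqf⟩
        rintro rfl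
        rw [hqf] at hf
        simp at hf

/-- One step of the search for the reachable vertices. -/
def reach {n : ℕ} (E : Fin n → ℕ) (A : Finset (Fin n)) : Finset (Fin n) :=
  univ.filter fun v => v ∈ A ∨ ∃ u ∈ A, (E u).testBit v.val = true

theorem reach_sound {n : ℕ} (E : Fin n → ℕ) (D : Digraph (Fin n))
    (hD : ∀ u v, D.Adj u v ↔ u ≠ v ∧ (E u).testBit v.val = true) (u : Fin n) :
    ∀ (i : ℕ) (A : Finset (Fin n)), (∀ v ∈ A, Relation.ReflTransGen D.Adj u v) →
      ∀ v ∈ (reach E)^[i] A, Relation.ReflTransGen D.Adj u v := by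
  intro i
  induction i with
  | zero => intro A hA v hv; exact hA v hv
  | succ i ih =>
    intro A hA v hv
    rw [Function.iterate_succ_apply] at hv
    refine ih (reach E A) ?_ v hv
    intro w hw
    unfold reach at hw
    simp only [mem_filter, mem_univ, true_and] at hw
    rcases hw with hw | ⟨z, hz, hzw⟩
    · exact hA w hw
    · by_cases h : z = w
      · rw [← h]; exact hA z hz
      · exact (hA z hz).tail ((hD z w).2 ⟨h, hzw⟩)

theorem exists_digraph (n r t k : ℕ) (E : Fin n → ℕ)
    (h0 : ∀ v : Fin n, (E v).testBit v.val = true)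
    (h1 : ∀ v, (univ.filter fun w : Fin n => (E v).testBit w.val = true).card = r + 1)
    (h2 : ∀ v : Fin n, (univ.filter fun w : Fin n => (E w).testBit v.val = true).card = r + 1)
    (i : ℕ) (h3 : ∀ u, (reach E)^[i] {u} = univ)
    (S0 : Finset (Fin n)) (hS0 : S0.card ≤ t)
    (h4 : ∀ v, v ∉ S0 → ∃ u ∈ S0, (E u).testBit v.val = true)
    (h5 : nt n k (List.ofFn E) = true) :
    ∃ D : Digraph (Fin n), InClass r D ∧ gamma D ≤ t ∧ k + 1 ≤ gamma (rev D) := by
  classical
  refine ⟨⟨fun u v => u ≠ v ∧ (E u).testBit v.val = true⟩, ⟨fun v hv => hv.1 rfl, ?_, ?_, ?_⟩,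
    ?_, ?_⟩
  · intro v
    have e1 : {w : Fin n | v ≠ w ∧ (E v).testBit w.val = true} =
        (((univ.filter fun w : Fin n => (E v).testBit w.val = true).erase v : Finset (Fin n)) :
          Set (Fin n)) := by
      ext w
      simp only [Set.mem_ofPred_eq, coe_erase, coe_filter, mem_univ, true_and, Set.mem_sdiff,
        Set.mem_singleton_iff]
      tauto
    change Set.ncard {w : Fin n | v ≠ w ∧ (E v).testBit w.val = true} = r
    rw [e1, Set.ncard_coe_finset, Finset.card_erase_of_mem (by simp [h0]), h1]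
    rfl
  · intro v
    have e1 : {w : Fin n | w ≠ v ∧ (E w).testBit v.val = true} =
        (((univ.filter fun w : Fin n => (E w).testBit v.val = true).erase v : Finset (Fin n)) :
          Set (Fin n)) := by
      ext w
      simp only [Set.mem_ofPred_eq, coe_erase, coe_filter, mem_univ, true_and, Set.mem_sdiff,
        Set.mem_singleton_iff]
      tauto
    change Set.ncard {w : Fin n | w ≠ v ∧ (E w).testBit v.val = true} = r
    rw [e1, Set.ncard_coe_finset, Finset.card_erase_of_mem (by simp [h0]), h2]
    rfl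
  · intro u v
    refine reach_sound E _ (fun _ _ => Iff.rfl) u i {u} ?_ v ?_
    · intro w hw
      rw [mem_singleton] at hw
      rw [hw]
    · rw [h3]
      exact mem_univ v
  · refine le_trans (Nat.sInf_le ⟨S0, rfl, ?_⟩) hS0
    intro v hv
    obtain ⟨u, hu, huv⟩ := h4 v hv
    refine ⟨u, hu, ?_, huv⟩
    rintro rfl
    exact hv hu
  · by_contra hlt
    push Not at hlt
    obtain ⟨S, hS, hS2⟩ := exists_gamma
      (rev (⟨fun u v => u ≠ v ∧ (E u).testBit v.val = true⟩ : Digraph (Fin n)))
    refine nt_sound n k _ h5 S (by omega) ?_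
    intro e he
    rw [List.mem_ofFn] at he
    obtain ⟨v, rfl⟩ := he
    by_cases hv : v ∈ S
    · exact ⟨v, hv, h0 v⟩
    · obtain ⟨u, hu, huv⟩ := hS2 v hv
      exact ⟨u, hu, huv.2⟩

end Pool.Agent.Lib.MP_9a58dc_co.Explicit
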