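import Pool.Agent.Lib.MP_9a58dc_co.Explicit

/-!
Explicit digraphs for small degrees.
-/

set_option autoImplicit false

namespace Pool.Agent.Lib.MP_9a58dc_co.Explicit

open Finset Pool.Agent.Lib.MP_9a58dc_co

/-- Out-degree 4, 15 vertices. -/
def l5 : List ℕ := [4209, 26114, 2444, 16909, 9424, 12456, 2140, 211, 17232, 23168, 5134, 11300,
  6434, 9475, 17185]

theorem digraph5 : ∃ D : Digraph (Fin 15), InClass 4 D ∧ gamma D ≤ 3 ∧ 5 ≤ gamma (rev D) :=
  exists_digraph 15 4 3 4 (fun v => l5.getD v.val 0) (by decide +kernel) (by decide +kernel)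
    (by decide +kernel) 3 (by decide +kernel) {0, 1, 2} (by decide) (by decide +kernel)
    (by decide +kernel)

/-- Out-degree 5, 18 vertices. -/
def l6 : List ℕ := [16625, 208906, 36612, 10793, 126, 1464, 135620, 165064, 91396, 199171, 48160,
  84130, 168965, 31248, 53261, 107138, 65875, 148304]

theorem digraph6 : ∃ D : Digraph (Fin 18), InClass 5 D ∧ gamma D ≤ 3 ∧ 5 ≤ gamma (rev D) :=
  exists_digraph 18 5 3 4 (fun v => l6.getD v.val 0) (by decide +kernel) (by decide +kernel)
    (by decide +kernel) 3 (by decide +kernel) {0, 1, 2} (by decide) (by decide +kernel)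
    (by decide +kernel)

/-- Out-degree 6, 21 vertices. -/
def l7 : List ℕ := [264673, 545306, 1287172, 264073, 265365, 1181810, 136420, 52376, 1843492,
  1430016, 151080, 571401, 70407, 42083, 155804, 824066, 1123040, 141590, 888912, 1785928,
  1655043]

theorem digraph7 : ∃ D : Digraph (Fin 21), InClass 6 D ∧ gamma D ≤ 3 ∧ 5 ≤ gamma (rev D) :=
  exists_digraph 21 6 3 4 (fun v => l7.getD v.val 0) (by decide +kernel) (by decide +kernel)
    (by decide +kernel) 3 (by decide +kernel) {0, 1, 2} (by decide) (by decide +kernel)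
    (by decide +kernel)

/-- Out-degree 8, 18 vertices. -/
def l9 : List ℕ := [205673, 56470, 110821, 101273, 84826, 189284, 238794, 224432, 142227, 169896,
  21742, 16212, 86919, 193549, 51323, 116515, 210974, 138357]

theorem digraph9 : ∃ D : Digraph (Fin 18), InClass 8 D ∧ gamma D ≤ 2 ∧ 4 ≤ gamma (rev D) :=
  exists_digraph 18 8 2 3 (fun v => l9.getD v.val 0) (by decide +kernel) (by decide +kernel)
    (by decide +kernel) 2 (by decide +kernel) {0, 1} (by decide) (by decide +kernel)
    (by decide +kernel)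

end Pool.Agent.Lib.MP_9a58dc_co.Explicit
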