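import Pool.Agent.Lib.MP_9a58dc_co.Lower
import Pool.Agent.Lib.MP_6659c6_co.RandSum
import Pool.Agent.Lib.MP_6659c6_co.RandMode

/-!
Lower bound construction with all the blocks of random permutations.
-/

set_option autoImplicit false

namespace Pool.Agent.Lib.MP_9a58dc_co

open Finset

section perms

variable {Y : Type} [Fintype Y] [DecidableEq Y]

/-- The number of permutations mapping `S` onto `T`. -/
theorem card_perm_onto (S T : Finset Y) :
    (Fintype.card Y).choose S.card *
      (univ.filter fun s : Equiv.Perm Y => S.map s.toEmbedding = T).card ≤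
      (Fintype.card Y).factorial := by
  classical
  by_cases hc : T.card = S.card
  · have hσ : ∀ T' : Finset Y, T'.card = S.card →
        ∃ σ : Equiv.Perm Y, T.map σ.toEmbedding = T' := by
      intro T' hT'
      obtain ⟨s, hs⟩ := Equiv.Perm.exists_map_finset_eq T T' (by rw [hc, hT'])
      exact ⟨s, hs⟩
    choose! σ hσ using hσ
    have hle : ((powersetCard S.card (univ : Finset Y)) ×ˢ
        (univ.filter fun s : Equiv.Perm Y => S.map s.toEmbedding = T)).card ≤
        (univ : Finset (Equiv.Perm Y)).card := by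
      refine Finset.card_le_card_of_injOn (fun q => σ q.1 * q.2)
        (fun _ _ => Finset.mem_coe.2 (mem_univ _)) ?_
      have key : ∀ q : Finset Y × Equiv.Perm Y,
          q ∈ ((powersetCard S.card (univ : Finset Y)) ×ˢ
            (univ.filter fun s : Equiv.Perm Y => S.map s.toEmbedding = T)) →
          S.map (σ q.1 * q.2).toEmbedding = q.1 := by
        rintro ⟨T', s⟩ hq
        simp only [mem_product, mem_powersetCard, mem_filter, mem_univ, true_and] at hq
        obtain ⟨⟨-, hT'⟩, hs⟩ := hq
        have h1 : S.map (σ T' * s).toEmbedding = (S.map s.toEmbedding).map (σ T').toEmbedding := by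
          rw [Finset.map_map]
          rfl
        rw [h1, hs, hσ T' hT']
      rintro ⟨T₁, s₁⟩ h₁ ⟨T₂, s₂⟩ h₂ h
      have h₁' := key _ (Finset.mem_coe.1 h₁)
      have h₂' := key _ (Finset.mem_coe.1 h₂)
      simp only at h h₁' h₂'
      have hT : T₁ = T₂ := by
        rw [← h₁', ← h₂', h]
      subst hT
      rw [mul_right_inj] at h
      rw [h]
    rw [card_product, card_powersetCard, card_univ, card_univ, Fintype.card_perm] at hle
    exact hle
  · have : (univ.filter fun s : Equiv.Perm Y => S.map s.toEmbedding = T) = ∅ := by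
      rw [Finset.filter_eq_empty_iff]
      intro s _ h
      apply hc
      rw [← h, card_map]
    rw [this]
    simp

/-- One step: a permutation that moves few members of `F` into `H`. -/
theorem exists_perm_step (k : ℕ) (F H : Finset (Finset Y)) (hF : ∀ T ∈ F, T.card = k) :
    ∃ s : Equiv.Perm Y, (Fintype.card Y).choose k *
      (F.filter fun T => T.map s.toEmbedding ∈ H).card ≤ F.card * H.card := by
  classical
  by_contra hcon
  push Not at hcon
  have h1 : ∑ s : Equiv.Perm Y, F.card * H.card <
      ∑ s : Equiv.Perm Y, (Fintype.card Y).choose k *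
        (F.filter fun T => T.map s.toEmbedding ∈ H).card :=
    Finset.sum_lt_sum_of_nonempty ⟨1, mem_univ _⟩ fun s _ => hcon s
  rw [Finset.sum_const, card_univ, Fintype.card_perm, smul_eq_mul] at h1
  have h2 : ∑ s : Equiv.Perm Y, (F.filter fun T => T.map s.toEmbedding ∈ H).card =
      ∑ T ∈ F, ∑ T' ∈ H, (univ.filter fun s : Equiv.Perm Y => T.map s.toEmbedding = T').card := by
    have h3 : ∀ s : Equiv.Perm Y, (F.filter fun T => T.map s.toEmbedding ∈ H).card =
        ∑ T ∈ F, ∑ T' ∈ H, if T.map s.toEmbedding = T' then 1 else 0 := by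
      intro s
      rw [Finset.card_filter]
      apply Finset.sum_congr rfl
      intro T _
      rw [Finset.sum_ite_eq]
    simp only [h3]
    rw [Finset.sum_comm]
    apply Finset.sum_congr rfl
    intro T _
    rw [Finset.sum_comm]
    apply Finset.sum_congr rfl
    intro T' _
    rw [Finset.card_filter]
  rw [← Finset.mul_sum, h2, Finset.mul_sum] at h1
  have h4 : ∑ T ∈ F, (Fintype.card Y).choose k *
      ∑ T' ∈ H, (univ.filter fun s : Equiv.Perm Y => T.map s.toEmbedding = T').card ≤
      ∑ T ∈ F, ∑ T' ∈ H, (Fintype.card Y).factorial := by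
    apply Finset.sum_le_sum
    intro T hT
    rw [Finset.mul_sum]
    apply Finset.sum_le_sum
    intro T' _
    rw [← hF T hT]
    exact card_perm_onto T T'
  rw [Finset.sum_const, Finset.sum_const, smul_eq_mul, smul_eq_mul] at h4
  have h5 : (Fintype.card Y).factorial * (F.card * H.card) =
      F.card * (H.card * (Fintype.card Y).factorial) := by ring
  rw [h5] at h1
  exact absurd (h1.trans_le h4) (lt_irrefl _)

/-- Iteration. -/
theorem exists_perms (k : ℕ) (hk : k ≤ Fintype.card Y) (H : Finset (Finset Y)) (m : ℕ) :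
    ∃ s : Fin m → Equiv.Perm Y,
      (((powersetCard k (univ : Finset Y)).filter
        fun T => ∀ i, T.map (s i).toEmbedding ∈ H).card : ℝ) ≤
        ((Fintype.card Y).choose k : ℝ) * ((H.card : ℝ) / (Fintype.card Y).choose k) ^ m := by
  classical
  have hC : (0 : ℝ) < (Fintype.card Y).choose k := by exact_mod_cast Nat.choose_pos hk
  induction m with
  | zero =>
    refine ⟨fun i => i.elim0, ?_⟩
    simp
  | succ m ih =>
    obtain ⟨s, hs⟩ := ih
    set F := (powersetCard k (univ : Finset Y)).filter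
      fun T => ∀ i, T.map (s i).toEmbedding ∈ H with hF
    obtain ⟨s', hs'⟩ := exists_perm_step k F H (fun T hT => by
      rw [hF, mem_filter, mem_powersetCard] at hT
      exact hT.1.2)
    refine ⟨Fin.cons s' s, ?_⟩
    have hsub : ((powersetCard k (univ : Finset Y)).filter
        fun T => ∀ i, T.map ((Fin.cons s' s : Fin (m + 1) → Equiv.Perm Y) i).toEmbedding ∈ H) =
        F.filter fun T => T.map s'.toEmbedding ∈ H := by
      ext T
      simp only [hF, mem_filter, Fin.forall_fin_succ, Fin.cons_zero, Fin.cons_succ]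
      tauto
    rw [hsub]
    have h1 : ((Fintype.card Y).choose k : ℝ) *
        ((F.filter fun T => T.map s'.toEmbedding ∈ H).card : ℝ) ≤ F.card * H.card := by
      exact_mod_cast hs'
    have h2 : ((F.filter fun T => T.map s'.toEmbedding ∈ H).card : ℝ) ≤
        F.card * ((H.card : ℝ) / (Fintype.card Y).choose k) := by
      rw [mul_div_assoc', le_div_iff₀ hC]
      linarith
    refine h2.trans ?_
    calc (F.card : ℝ) * ((H.card : ℝ) / (Fintype.card Y).choose k)
        ≤ (((Fintype.card Y).choose k : ℝ) * ((H.card : ℝ) / (Fintype.card Y).choose k) ^ m) *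
          ((H.card : ℝ) / (Fintype.card Y).choose k) :=
          mul_le_mul_of_nonneg_right hs (by positivity)
      _ = _ := by ring

end perms

section hit

/-- The `k`-sets that meet all the blocks. -/
def Hit (t m k : ℕ) : Finset (Finset (Pt t m)) :=
  (powersetCard k (univ : Finset (Pt t m))).filter fun T => ∀ c : Fin t, ∃ y ∈ T, y.1 = c

open Pool.Agent.Lib.MP_6659c6_co in
theorem card_Hit_le (t m k : ℕ) (hk : 0 < k) (hkN : k < t * (m + 2)) :
    ((Hit t m k).card : ℝ) ≤ ((t * (m + 2) : ℕ) + 1 : ℝ) * ((t * (m + 2)).choose k : ℝ) *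
      (1 - (1 - (k : ℝ) / (t * (m + 2) : ℕ)) ^ (m + 2)) ^ t := by
  classical
  obtain ⟨N, hN⟩ : ∃ N, N = t * (m + 2) := ⟨_, rfl⟩
  rw [← hN] at hkN ⊢
  have hN0 : (0 : ℝ) < N := by exact_mod_cast (by omega : 0 < N)
  have hk0 : (0 : ℝ) < k := by exact_mod_cast hk
  have hkN' : (k : ℝ) < N := by exact_mod_cast hkN
  obtain ⟨a, ha⟩ : ∃ a : ℝ, a = (k : ℝ) / N := ⟨_, rfl⟩
  rw [← ha]
  have ha0 : 0 < a := by rw [ha]; positivity
  have ha1 : a < 1 := by rw [ha, div_lt_one hN0]; exact hkN'
  -- the weighted sum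
  have hsum : ((Hit t m k).card : ℝ) * (a ^ k * (1 - a) ^ (N - k)) ≤
      (1 - (1 - a) ^ (m + 2)) ^ t := by
    rw [← Rand.matrix_sum t (m + 2) a]
    have hinj : Set.InjOn (fun T : Finset (Pt t m) => fun (c : Fin t) (j : Fin (m + 2)) =>
        decide ((c, j) ∈ T)) (Hit t m k) := by
      intro T _ T' _ h
      ext ⟨c, j⟩
      have := congrFun (congrFun h c) j
      simpa using this
    have himg : ∑ M ∈ (Hit t m k).image (fun T : Finset (Pt t m) =>
        fun (c : Fin t) (j : Fin (m + 2)) => decide ((c, j) ∈ T)),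
        ∏ y, ∏ i, Rand.wt a (M y i) = ((Hit t m k).card : ℝ) * (a ^ k * (1 - a) ^ (N - k)) := by
      rw [Finset.sum_image hinj]
      have h1 : ∀ T ∈ Hit t m k, ∏ y : Fin t, ∏ i : Fin (m + 2),
          Rand.wt a (decide ((y, i) ∈ T)) = a ^ k * (1 - a) ^ (N - k) := by
        intro T hT
        have hTk : T.card = k := by
          rw [Hit, mem_filter, mem_powersetCard] at hT
          exact hT.1.2
        rw [← Fintype.prod_prod_type' (f := fun (y : Fin t) (i : Fin (m + 2)) =>
          Rand.wt a (decide ((y, i) ∈ T)))]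
        have h2 : ∀ z : Pt t m, Rand.wt a (decide (((z.1, z.2) : Pt t m) ∈ T)) =
            if z ∈ T then a else 1 - a := by
          intro z
          unfold Rand.wt
          simp
        simp only [h2]
        rw [Finset.prod_ite, Finset.prod_const, Finset.prod_const]
        congr 2
        · rw [← hTk]
          congr 1
          ext z
          simp
        · have h3 : (univ.filter fun z : Pt t m => z ∉ T) = univ \ T := by
            ext z
            simp
          rw [h3, Finset.card_sdiff_of_subset (subset_univ _), card_univ, hTk]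
          simp [hN]
      rw [Finset.sum_congr rfl h1, Finset.sum_const, nsmul_eq_mul]
    rw [← himg]
    apply Finset.sum_le_sum_of_subset_of_nonneg
    · intro M hM
      rw [mem_image] at hM
      obtain ⟨T, hT, rfl⟩ := hM
      rw [mem_filter]
      refine ⟨mem_univ _, fun c => ?_⟩
      rw [Hit, mem_filter] at hT
      obtain ⟨y, hy, hyc⟩ := hT.2 c
      refine ⟨y.2, ?_⟩
      rw [decide_eq_true_eq, ← hyc]
      exact hy
    · intro M _ _
      apply Finset.prod_nonneg
      intro y _
      apply Finset.prod_nonneg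
      intro i _
      unfold Rand.wt
      split_ifs <;> linarith
  -- the mode
  have hmode := Rand.mode_bound N k hk hkN
  have hmode' : (N : ℝ) ^ N ≤ (N + 1) * (N.choose k * (k : ℝ) ^ k * ((N : ℝ) - k) ^ (N - k)) := by
    have h1 : ((N ^ N : ℕ) : ℝ) ≤ (((N + 1) * (N.choose k * k ^ k * (N - k) ^ (N - k)) : ℕ) : ℝ) := by
      exact_mod_cast hmode
    push_cast [Nat.cast_sub hkN.le] at h1
    exact h1
  have hw : 1 ≤ ((N : ℝ) + 1) * (N.choose k : ℝ) * (a ^ k * (1 - a) ^ (N - k)) := by
    have h1 : a ^ k * (1 - a) ^ (N - k) = (k : ℝ) ^ k * ((N : ℝ) - k) ^ (N - k) / (N : ℝ) ^ N := by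
      have h2 : 1 - a = ((N : ℝ) - k) / N := by rw [ha]; field_simp
      have h3 : (N : ℝ) ^ N = (N : ℝ) ^ k * (N : ℝ) ^ (N - k) := by
        rw [← pow_add]
        congr 1
        omega
      rw [h2, ha, div_pow, div_pow, h3]
      field_simp
    rw [h1, mul_div_assoc', le_div_iff₀ (by positivity), one_mul]
    refine hmode'.trans (le_of_eq ?_)
    ring
  have hH0 : (0 : ℝ) ≤ ((Hit t m k).card : ℝ) := Nat.cast_nonneg _
  calc ((Hit t m k).card : ℝ) = (Hit t m k).card * 1 := by ring
    _ ≤ (Hit t m k).card * (((N : ℝ) + 1) * (N.choose k : ℝ) * (a ^ k * (1 - a) ^ (N - k))) :=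
        mul_le_mul_of_nonneg_left hw hH0
    _ = ((N : ℝ) + 1) * (N.choose k : ℝ) *
        (((Hit t m k).card : ℝ) * (a ^ k * (1 - a) ^ (N - k))) := by ring
    _ ≤ ((N : ℝ) + 1) * (N.choose k : ℝ) * (1 - (1 - a) ^ (m + 2)) ^ t := by
        apply mul_le_mul_of_nonneg_left hsum
        positivity

end hit

section construction

variable {t m : ℕ}

/-- The construction with all the blocks. -/
theorem construction_all (ht : 1 ≤ t) (k : ℕ) (hk : k ≤ t * (m + 2))
    (h : ((t * (m + 2)).choose k : ℝ) *
      (((Hit t m k).card : ℝ) / ((t * (m + 2)).choose k : ℝ)) ^ m < 1) :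
    ∃ D : Digraph (Gr t m), InClass (m + 1) D ∧ gamma D ≤ t ∧ k + 1 ≤ gamma (rev D) := by
  classical
  have : NeZero t := ⟨by omega⟩
  have hcardY : Fintype.card (Pt t m) = t * (m + 2) := by simp
  obtain ⟨s, hs⟩ := exists_perms (Y := Pt t m) k (by rw [hcardY]; exact hk) (Hit t m k) m
  rw [hcardY] at hs
  have hzero : ((powersetCard k (univ : Finset (Pt t m))).filter
      fun T => ∀ i, T.map (s i).toEmbedding ∈ Hit t m k).card = 0 := by
    have := hs.trans_lt h
    exact Nat.lt_one_iff.mp (by exact_mod_cast this)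
  set σ : Fin (m + 2) → Equiv.Perm (Pt t m) :=
    Fin.cons 1 (Fin.cons (rot t m) s) with hσ
  have hσ0 : σ 0 = 1 := rfl
  have hσ1 : σ 1 = rot t m := rfl
  have hσ2 : ∀ i : Fin m, σ i.succ.succ = s i := fun i => rfl
  obtain ⟨φ, hφ, hφ2⟩ := exists_sdr σ
  refine ⟨dig σ φ, ⟨fun v hv => hv.1 rfl, (dig_regular σ φ hφ hφ2).1, (dig_regular σ φ hφ hφ2).2,
    dig_strong σ φ hφ (conn_of_rot σ hσ0 hσ1)⟩, dig_gamma_le σ φ,
    dig_le_gamma_rev σ φ hφ2 k ?_⟩
  intro T hT
  obtain ⟨T', hTT', -, hT'⟩ := Finset.exists_subsuperset_card_eq (Finset.subset_univ T) hT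
    (by rw [Finset.card_univ, hcardY]; exact hk)
  rw [Finset.card_eq_zero, Finset.filter_eq_empty_iff] at hzero
  have h1 := hzero (x := T') (by simp [mem_powersetCard, hT'])
  push Not at h1
  obtain ⟨i, hi⟩ := h1
  rw [Hit, mem_filter] at hi
  push Not at hi
  obtain ⟨c, hc⟩ := hi (by
    rw [mem_powersetCard]
    exact ⟨subset_univ _, by rw [card_map, hT']⟩)
  refine ⟨(i.succ.succ, c), ?_⟩
  rw [Finset.disjoint_left]
  intro y hy hyT
  have h2 : (s i y).1 = c := by
    simpa [part, hσ2] using hy
  exact hc (s i y) (Finset.mem_map_of_mem _ (hTT' hyT)) h2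

end construction

end Pool.Agent.Lib.MP_9a58dc_co
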