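import Pool.Agent.Lib.MP_9a58dc_co.Many
import Pool.Agent.Lib.MP_9a58dc_co.Upper
import Pool.Agent.Lib.MP_6659c6_co.RandMain

/-!
Lower bound for `ρ_r`: the entropy criterion.
-/

set_option autoImplicit false

namespace Pool.Agent.Lib.MP_9a58dc_co

open Finset Filter Topology Real

/-- The exponent: `D` times the natural entropy plus `(D-2) log (1 - (1-a)^D)`. -/
noncomputable def expo2 (D : ℕ) (a : ℝ) : ℝ :=
  D * (-(a * log a) - (1 - a) * log (1 - a)) + ((D : ℝ) - 2) * log (1 - (1 - a) ^ D)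

/-- The ratio of a single digraph bounds `ρ_r` from below. -/
theorem rho_ge_of_digraph {r : ℕ} {V : Type} [Fintype V] [Nonempty V] (D : Digraph V)
    (hD : InClass r D) (t k : ℕ) (x : ℝ) (hg : gamma D ≤ t) (hgr : k ≤ gamma (rev D))
    (hx : x * t ≤ k) (hx0 : 0 ≤ x) : x ≤ rho r := by
  have hmem : (gamma (rev D) : ℝ) / gamma D ∈ ratios r :=
    ⟨_, inferInstance, inferInstance, D, hD, rfl⟩
  refine le_trans ?_ (le_csSup (bddAbove_ratios r) hmem)
  have hgpos : (0 : ℝ) < gamma D := by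
    have := card_le_gamma hD
    have h3 : 0 < Fintype.card V := Fintype.card_pos
    have : 0 < gamma D := by
      rcases Nat.eq_zero_or_pos (gamma D) with h | h
      · rw [h] at this; omega
      · exact h
    exact_mod_cast this
  rw [le_div_iff₀ hgpos]
  have h1 : (gamma D : ℝ) ≤ t := by exact_mod_cast hg
  have h2 : (k : ℝ) ≤ gamma (rev D) := by exact_mod_cast hgr
  have h3 := mul_le_mul_of_nonneg_left h1 hx0
  linarith

/-- Lower bound for rational densities. -/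
theorem rho_ge_rat (m p q : ℕ) (hp : 0 < p) (hpq : p < q)
    (hent : expo2 (m + 2) ((p : ℝ) / q) < 0) :
    ((p : ℝ) / q) * ((m + 2 : ℕ) : ℝ) ≤ rho (m + 1) := by
  obtain ⟨a, ha⟩ : ∃ a : ℝ, a = (p : ℝ) / q := ⟨_, rfl⟩
  rw [← ha] at hent ⊢
  have hq0 : (0 : ℝ) < q := by exact_mod_cast (by omega : 0 < q)
  have hp0 : (0 : ℝ) < p := by exact_mod_cast hp
  have ha0 : 0 < a := by rw [ha]; positivity
  have ha1 : a < 1 := by
    rw [ha, div_lt_one hq0]
    exact_mod_cast hpq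
  have hρ := Pool.Agent.Lib.MP_6659c6_co.Rand.rho_bounds (m + 2) (by omega) a ha0 ha1
  obtain ⟨ρ, hρdef⟩ : ∃ ρ : ℝ, ρ = 1 - (1 - a) ^ (m + 2) := ⟨_, rfl⟩
  rw [← hρdef] at hρ
  obtain ⟨θ, hθ⟩ : ∃ θ : ℝ, θ = Real.exp (expo2 (m + 2) a) := ⟨_, rfl⟩
  have hθ0 : 0 < θ := by rw [hθ]; exact Real.exp_pos _
  have hθ1 : θ < 1 := by rw [hθ]; simpa using Real.exp_lt_exp.2 hent
  have hpq' : a * q = p := by rw [ha]; field_simp
  -- the limit
  have hlim : Tendsto (fun n : ℕ => ((n : ℝ) + 1) ^ m * θ ^ n) atTop (𝓝 0) := by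
    have h1 := tendsto_pow_const_mul_const_pow_of_abs_lt_one m
      (r := θ) (by rw [abs_of_pos hθ0]; exact hθ1)
    have h2 := (tendsto_add_atTop_iff_nat 1).2 h1
    have h3 := h2.mul_const (θ⁻¹)
    rw [zero_mul] at h3
    refine h3.congr fun n => ?_
    push_cast
    rw [pow_succ]
    field_simp
  have hev : ∀ᶠ n : ℕ in atTop, ((m + 2 : ℕ) : ℝ) ^ m * (((n : ℝ) + 1) ^ m * θ ^ n) < 1 := by
    have hpos : (0 : ℝ) < ((m + 2 : ℕ) : ℝ) ^ m := by positivity
    have := hlim.eventually (gt_mem_nhds (show (0 : ℝ) < 1 / ((m + 2 : ℕ) : ℝ) ^ m by positivity))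
    filter_upwards [this] with n hn
    rw [lt_div_iff₀ hpos] at hn
    linarith
  obtain ⟨n0, hn0⟩ := Filter.eventually_atTop.1 hev
  obtain ⟨j, hj⟩ : ∃ j : ℕ, j = max n0 1 := ⟨_, rfl⟩
  have hj1 : 1 ≤ j := by rw [hj]; exact le_max_right _ _
  obtain ⟨t, ht⟩ : ∃ t : ℕ, t = q * j := ⟨_, rfl⟩
  have hjn : n0 ≤ t := by
    rw [ht]
    calc n0 ≤ j := by rw [hj]; exact le_max_left _ _
      _ = 1 * j := (one_mul _).symm
      _ ≤ q * j := Nat.mul_le_mul_right j (by omega)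
  have ht1 : 1 ≤ t := by rw [ht]; exact Nat.mul_pos (by omega) hj1
  have ht0 : (0 : ℝ) < t := by exact_mod_cast ht1
  obtain ⟨k, hk⟩ : ∃ k : ℕ, k = p * j * (m + 2) := ⟨_, rfl⟩
  obtain ⟨N, hN⟩ : ∃ N : ℕ, N = t * (m + 2) := ⟨_, rfl⟩
  have hk0 : 0 < k := by rw [hk]; exact Nat.mul_pos (Nat.mul_pos hp hj1) (by omega)
  have hkN : k < N := by
    rw [hk, hN, ht]
    exact Nat.mul_lt_mul_of_pos_right (Nat.mul_lt_mul_of_pos_right hpq hj1) (by omega)
  have hN0 : (0 : ℝ) < N := by exact_mod_cast (by omega : 0 < N)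
  have hNr : (N : ℝ) = t * ((m + 2 : ℕ) : ℝ) := by rw [hN]; push_cast; ring
  have hkr : (k : ℝ) = a * N := by
    rw [hk, hN, ht]
    push_cast
    rw [← hpq']
    ring
  have hdiv : (k : ℝ) / N = a := by rw [hkr]; field_simp
  -- the key estimate
  have hkey : (N.choose k : ℝ) * ρ ^ (t * m) ≤ θ ^ t := by
    have h1 := Pool.Agent.Lib.MP_6659c6_co.Rand.choose_mul_le N k hkN.le a ha0.le ha1.le
    have h2 : θ ^ t * (a ^ k * (1 - a) ^ (N - k)) = ρ ^ (t * m) := by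
      have e1 : θ ^ t = Real.exp ((t : ℝ) * expo2 (m + 2) a) := by
        rw [hθ, ← Real.exp_nat_mul]
      have e2 : a ^ k = Real.exp ((k : ℝ) * log a) := by
        rw [Real.exp_nat_mul, Real.exp_log ha0]
      have e3 : (1 - a) ^ (N - k) = Real.exp (((N - k : ℕ) : ℝ) * log (1 - a)) := by
        rw [Real.exp_nat_mul, Real.exp_log (by linarith)]
      have e4 : ρ ^ (t * m) = Real.exp (((t * m : ℕ) : ℝ) * log ρ) := by
        rw [Real.exp_nat_mul, Real.exp_log hρ]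
      rw [e1, e2, e3, e4, ← Real.exp_add, ← Real.exp_add]
      congr 1
      unfold expo2
      rw [← hρdef, Nat.cast_sub hkN.le, hkr, hNr]
      push_cast
      ring
    rw [← h2]
    have h3 : (N.choose k : ℝ) * (θ ^ t * (a ^ k * (1 - a) ^ (N - k)))
        = θ ^ t * ((N.choose k : ℝ) * (a ^ k * (1 - a) ^ (N - k))) := by ring
    rw [h3]
    calc _ ≤ θ ^ t * 1 := mul_le_mul_of_nonneg_left h1 (by positivity)
      _ = _ := mul_one _
  -- the condition
  have hC0 : (0 : ℝ) < N.choose k := by exact_mod_cast Nat.choose_pos hkN.le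
  have hcond : ((t * (m + 2)).choose k : ℝ) *
      (((Hit t m k).card : ℝ) / ((t * (m + 2)).choose k : ℝ)) ^ m < 1 := by
    have h1 := card_Hit_le t m k hk0 (by rw [← hN]; exact hkN)
    rw [← hN] at h1 ⊢
    rw [hdiv, ← hρdef] at h1
    have h2 : ((Hit t m k).card : ℝ) / (N.choose k : ℝ) ≤ ((N : ℝ) + 1) * ρ ^ t := by
      rw [div_le_iff₀ hC0]
      linarith
    have h3 : (((Hit t m k).card : ℝ) / (N.choose k : ℝ)) ^ m ≤ (((N : ℝ) + 1) * ρ ^ t) ^ m :=
      pow_le_pow_left₀ (by positivity) h2 m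
    calc (N.choose k : ℝ) * (((Hit t m k).card : ℝ) / (N.choose k : ℝ)) ^ m
        ≤ (N.choose k : ℝ) * (((N : ℝ) + 1) * ρ ^ t) ^ m :=
          mul_le_mul_of_nonneg_left h3 hC0.le
      _ = ((N : ℝ) + 1) ^ m * ((N.choose k : ℝ) * ρ ^ (t * m)) := by
          rw [mul_pow, ← pow_mul]; ring
      _ ≤ ((N : ℝ) + 1) ^ m * θ ^ t := mul_le_mul_of_nonneg_left hkey (by positivity)
      _ ≤ (((m + 2 : ℕ) : ℝ) * ((t : ℝ) + 1)) ^ m * θ ^ t := by
          apply mul_le_mul_of_nonneg_right _ (by positivity)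
          apply pow_le_pow_left₀ (by positivity)
          rw [hNr]
          push_cast
          nlinarith [(Nat.cast_nonneg m : (0 : ℝ) ≤ m)]
      _ = ((m + 2 : ℕ) : ℝ) ^ m * (((t : ℝ) + 1) ^ m * θ ^ t) := by
          rw [mul_pow]; ring
      _ < 1 := hn0 t hjn
  obtain ⟨D, hD, hg, hgr⟩ := construction_all ht1 k (by rw [← hN]; exact hkN.le) hcond
  have hne : Nonempty (Gr t m) := ⟨(0, ⟨0, ht1⟩)⟩
  refine rho_ge_of_digraph D hD t (k + 1) _ hg hgr ?_ (by positivity)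
  push_cast
  rw [hkr, hNr]
  push_cast
  nlinarith

lemma expo2_continuousAt (D : ℕ) (hD : 2 ≤ D) (a : ℝ) (h0 : 0 < a) (h1 : a < 1) :
    ContinuousAt (expo2 D) a := by
  unfold expo2
  have hρ := Pool.Agent.Lib.MP_6659c6_co.Rand.rho_bounds D hD a h0 h1
  refine ContinuousAt.add ?_ ?_
  · refine ContinuousAt.mul continuousAt_const (ContinuousAt.sub ?_ ?_)
    · exact (continuousAt_id.mul (Real.continuousAt_log (by linarith))).neg
    · refine ContinuousAt.mul (by fun_prop) ?_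
      exact ContinuousAt.log (by fun_prop) (by linarith)
  · refine ContinuousAt.mul continuousAt_const ?_
    exact ContinuousAt.log (by fun_prop) (by linarith)

/-- Lower bound for real densities: the entropy criterion. -/
theorem rho_ge_entropy (r : ℕ) (hr : 1 ≤ r) (a : ℝ) (h0 : 0 < a) (h1 : a < 1)
    (hent : expo2 (r + 1) a < 0) : a * ((r : ℝ) + 1) ≤ rho r := by
  obtain ⟨m, rfl⟩ : ∃ m, r = m + 1 := ⟨r - 1, by omega⟩
  have hc := expo2_continuousAt (m + 1 + 1) (by omega) a h0 h1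
  have hev : ∀ᶠ b in 𝓝 a, expo2 (m + 1 + 1) b < 0 ∧ b < 1 :=
    (hc.eventually (gt_mem_nhds hent)).and (gt_mem_nhds h1)
  obtain ⟨ε, hε, hball⟩ := Metric.eventually_nhds_iff.1 hev
  obtain ⟨b, hab, hbε⟩ := exists_rat_btwn (show a < a + ε by linarith)
  have hdist : dist (b : ℝ) a < ε := by
    rw [Real.dist_eq, abs_lt]
    constructor <;> linarith
  obtain ⟨hb1, hb2⟩ := hball hdist
  have hb0 : (0 : ℝ) < b := by linarith
  have hb0' : 0 < b := by exact_mod_cast hb0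
  have hnum : 0 < b.num := Rat.num_pos.2 hb0'
  have hcast : (b : ℝ) = ((b.num.toNat : ℕ) : ℝ) / ((b.den : ℕ) : ℝ) := by
    have h2 : ((b.num.toNat : ℕ) : ℤ) = b.num := Int.toNat_of_nonneg hnum.le
    have h3 : ((b.num.toNat : ℕ) : ℝ) = (b.num : ℝ) := by exact_mod_cast congrArg (Int.cast : ℤ → ℝ) h2
    rw [h3]
    exact_mod_cast (Rat.num_div_den b).symm
  have hden : (0 : ℝ) < ((b.den : ℕ) : ℝ) := by exact_mod_cast b.den_pos
  have hpq : b.num.toNat < b.den := by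
    have : ((b.num.toNat : ℕ) : ℝ) < ((b.den : ℕ) : ℝ) := by
      rw [hcast, div_lt_one hden] at hb2
      exact hb2
    exact_mod_cast this
  have hp : 0 < b.num.toNat := by omega
  have h4 := rho_ge_rat m b.num.toNat b.den hp hpq (by rw [← hcast]; exact hb1)
  rw [← hcast] at h4
  refine le_trans ?_ h4
  push_cast
  have : (0 : ℝ) ≤ m := Nat.cast_nonneg _
  nlinarith

end Pool.Agent.Lib.MP_9a58dc_co
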