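import Pool.Agent.Lib.MP_9a58dc_co.Small

/-!
A fast check that any four points share a side of one of the bipartitions: for every pair of
points the union of the pair masks of the common sides is everything.
-/

set_option autoImplicit false

namespace Pool.Agent.Lib.MP_9a58dc_co.Pairs

open Finset Pool.Agent.Lib.MP_9a58dc_co

/-- The mask of the pairs of elements of `S`. -/
def pm (N S : ℕ) : ℕ → ℕ
  | 0 => 0
  | j + 1 => Nat.lor (pm N S j) (bif S.testBit j then Nat.shiftLeft S (N * j) else 0)

theorem lt_of_bit {S N y : ℕ} (hS : S < 2 ^ N) (h : S.testBit y = true) : y < N := by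
  by_contra hcon
  push Not at hcon
  have h1 : S < 2 ^ y := hS.trans_le (Nat.pow_le_pow_right (by norm_num) hcon)
  rw [Nat.testBit_lt_two_pow h1] at h
  exact absurd h (by simp)

theorem pm_sound (N S : ℕ) (hS : S < 2 ^ N) (x : ℕ) :
    ∀ j, (pm N S j).testBit x = true → S.testBit (x / N) = true ∧ S.testBit (x % N) = true := by
  intro j
  induction j with
  | zero => intro h; simp [pm] at h
  | succ j ih =>
    intro h
    have h1 : ((pm N S j) ||| (bif S.testBit j then S <<< (N * j) else 0)).testBit x = true := h
    rw [Nat.testBit_or, Bool.or_eq_true] at h1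
    rcases h1 with h1 | h1
    · exact ih h1
    · cases hj : S.testBit j with
      | false => rw [hj] at h1; simp at h1
      | true =>
        rw [hj] at h1
        simp only [cond_true] at h1
        rw [Nat.testBit_shiftLeft, Bool.and_eq_true, decide_eq_true_eq] at h1
        obtain ⟨h2, h3⟩ := h1
        have h4 := lt_of_bit hS h3
        obtain ⟨y, hy⟩ := Nat.exists_eq_add_of_le h2
        have h5 : x - N * j = y := by omega
        rw [h5] at h3 h4
        have hN : 0 < N := by omega
        have h6 : x / N = j := by
          rw [hy, Nat.mul_add_div hN, Nat.div_eq_of_lt h4, Nat.add_zero]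
        have h7 : x % N = y := by
          rw [hy, Nat.mul_add_mod, Nat.mod_eq_of_lt h4]
        rw [h6, h7]
        exact ⟨hj, h3⟩

/-- The union of the pair masks of the sides that contain `p` and `q`. -/
def acc (p q : ℕ) : List (ℕ × ℕ × ℕ) → ℕ
  | [] => 0
  | (A, PA, PB) :: L =>
    bif A.testBit p then (bif A.testBit q then Nat.lor PA (acc p q L) else acc p q L)
    else (bif A.testBit q then acc p q L else Nat.lor PB (acc p q L))

/-- The rows with their masks. -/
def ext (N : ℕ) (As : List ℕ) : List (ℕ × ℕ × ℕ) :=
  As.map fun A => (A, pm N A N, pm N (Nat.xor (2 ^ N - 1) A) N)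

/-- The check. -/
def check (N : ℕ) (As : List ℕ) : Bool :=
  (List.range N).all fun p => (List.range N).all fun q =>
    (bif Nat.ble p q then Nat.beq (acc p q (ext N As)) (2 ^ (N * N) - 1) else true)

theorem acc_sound (N p q r s : ℕ) (hp : p < N) (hq : q < N) (hr : r < N) (hs : s < N) :
    ∀ As : List ℕ, (∀ A ∈ As, A < 2 ^ N) → (acc p q (ext N As)).testBit (N * r + s) = true →
      ∃ A ∈ As, A.testBit p = A.testBit q ∧ A.testBit p = A.testBit r ∧
        A.testBit p = A.testBit s := by
  have hN : 0 < N := by omega
  have e1 : (N * r + s) / N = r := by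
    rw [Nat.mul_add_div hN, Nat.div_eq_of_lt hs, Nat.add_zero]
  have e2 : (N * r + s) % N = s := by
    rw [Nat.mul_add_mod, Nat.mod_eq_of_lt hs]
  intro As
  induction As with
  | nil => intro _ h; simp [ext, acc] at h
  | cons A As ih =>
    intro hlt h
    have hA : A < 2 ^ N := hlt A (by simp)
    have hB : Nat.xor (2 ^ N - 1) A < 2 ^ N :=
      Nat.xor_lt_two_pow (Nat.sub_lt (by positivity) (by norm_num)) hA
    have ih' := ih (fun A' h' => hlt A' (List.mem_cons_of_mem _ h'))
    have fin : (acc p q (ext N As)).testBit (N * r + s) = true →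
        ∃ A' ∈ A :: As, A'.testBit p = A'.testBit q ∧ A'.testBit p = A'.testBit r ∧
          A'.testBit p = A'.testBit s := by
      intro h'
      obtain ⟨A', h1, h2⟩ := ih' h'
      exact ⟨A', List.mem_cons_of_mem _ h1, h2⟩
    unfold ext at h
    rw [List.map_cons] at h
    unfold acc at h
    change ∃ A' ∈ A :: As, _
    cases hp' : A.testBit p with
    | true =>
      cases hq' : A.testBit q with
      | true =>
        rw [hp', hq'] at h
        simp only [cond_true] at h
        have h1 : ((pm N A N) ||| (acc p q (ext N As))).testBit (N * r + s) = true := h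
        rw [Nat.testBit_or, Bool.or_eq_true] at h1
        rcases h1 with h1 | h1
        · obtain ⟨h2, h3⟩ := pm_sound N A hA _ N h1
          rw [e1] at h2
          rw [e2] at h3
          exact ⟨A, by simp, by rw [hp', hq'], by rw [hp', h2], by rw [hp', h3]⟩
        · exact fin h1
      | false =>
        rw [hp', hq'] at h
        simp only [cond_true, cond_false] at h
        exact fin h
    | false =>
      cases hq' : A.testBit q with
      | true =>
        rw [hp', hq'] at h
        simp only [cond_true, cond_false] at h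
        exact fin h
      | false =>
        rw [hp', hq'] at h
        simp only [cond_false] at h
        have h1 : ((pm N (Nat.xor (2 ^ N - 1) A) N) ||| (acc p q (ext N As))).testBit
            (N * r + s) = true := h
        rw [Nat.testBit_or, Bool.or_eq_true] at h1
        rcases h1 with h1 | h1
        · obtain ⟨h2, h3⟩ := pm_sound N _ hB _ N h1
          rw [e1] at h2
          rw [e2] at h3
          have h4 : ∀ z, z < N → (Nat.xor (2 ^ N - 1) A).testBit z = true →
              A.testBit z = false := by
            intro z hz h5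
            have h6 : ((2 ^ N - 1) ^^^ A).testBit z = true := h5
            rw [Nat.testBit_xor, Nat.testBit_two_pow_sub_one] at h6
            rw [decide_eq_true hz] at h6
            revert h6
            cases A.testBit z <;> simp
          exact ⟨A, by simp, by rw [hp', hq'], by rw [hp', h4 r hr h2], by rw [hp', h4 s hs h3]⟩
        · exact fin h1

theorem check_sound (N : ℕ) (As : List ℕ) (hlt : ∀ A ∈ As, A < 2 ^ N)
    (h : check N As = true) (p q r s : ℕ) (hp : p < N) (hq : q < N) (hr : r < N) (hs : s < N) :
    ∃ A ∈ As, A.testBit p = A.testBit q ∧ A.testBit p = A.testBit r ∧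
        A.testBit p = A.testBit s := by
  have key : ∀ p q : ℕ, p < N → q < N → p ≤ q → ∃ A ∈ As, A.testBit p = A.testBit q ∧
      A.testBit p = A.testBit r ∧ A.testBit p = A.testBit s := by
    intro p q hp hq hpq
    unfold check at h
    simp only [List.all_eq_true, List.mem_range] at h
    have h1 := h p hp q hq
    rw [Nat.ble_eq_true_of_le hpq] at h1
    simp only [cond_true] at h1
    have h2 := Nat.eq_of_beq_eq_true h1
    refine acc_sound N p q r s hp hq hr hs As hlt ?_
    rw [h2, Nat.testBit_two_pow_sub_one, decide_eq_true_eq]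
    have h3 : N * r + N ≤ N * N := by
      rw [← Nat.mul_succ]
      exact Nat.mul_le_mul_left N hr
    omega
  rcases le_total p q with h1 | h1
  · exact key p q hp hq h1
  · obtain ⟨A, hA, h2, h3, h4⟩ := key q p hq hp h1
    exact ⟨A, hA, h2.symm, by rw [← h2, h3], by rw [← h2, h4]⟩

theorem exists_of_rows (m : ℕ) (rows : List ℕ) (hlen : rows.length ≤ m + 1)
    (i0 : Fin rows.length)
    (hlt : ∀ A ∈ rows, A < 2 ^ (2 * (m + 2)))
    (hcard : ∀ i : Fin rows.length,
      (univ.filter fun y : Pt 2 m => (rows.get i).testBit (Small.idx y) = true).card = m + 2)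
    (hcross : ∀ a : Fin 2,
      (∃ j : Fin (m + 2), (rows.get i0).testBit (Small.idx (a, j)) = true) ∧
      (∃ j : Fin (m + 2), (rows.get i0).testBit (Small.idx (a, j)) = false))
    (hcheck : check (2 * (m + 2)) ((2 ^ (m + 2) - 1) :: rows) = true) :
    ∃ D : Digraph (Gr 2 m), InClass (m + 1) D ∧ gamma D ≤ 2 ∧ 4 + 1 ≤ gamma (rev D) := by
  classical
  refine Cube.digraph_of_family 4
    (fun i : Fin rows.length => univ.filter fun y : Pt 2 m =>
      (rows.get i).testBit (Small.idx y) = true)
    hcard (by simpa using hlen) i0 ?_ ?_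
  · intro a
    obtain ⟨⟨j, hj⟩, ⟨j', hj'⟩⟩ := hcross a
    exact ⟨⟨(a, j), by simpa using hj, rfl⟩, ⟨(a, j'), by simpa using hj', rfl⟩⟩
  · intro T hT
    have hpq : ∃ p q r s : Pt 2 m, T ⊆ {p, q, r, s} := by
      by_cases h3 : 4 ≤ Fintype.card (Pt 2 m)
      · obtain ⟨T', hTT', -, hT'⟩ := Finset.exists_subsuperset_card_eq (Finset.subset_univ T) hT
          (by rw [Finset.card_univ]; exact h3)
        obtain ⟨p, T'', -, rfl, hT''⟩ := Finset.card_eq_succ.mp hT'
        obtain ⟨q, r, s, -, -, -, rfl⟩ := Finset.card_eq_three.mp hT''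
        exact ⟨p, q, r, s, hTT'⟩
      · exfalso
        simp at h3
        omega
    obtain ⟨p, q, r, s, hpqr⟩ := hpq
    obtain ⟨w, hw1, hw2, hw3, hw4⟩ := check_sound _ _ (by
      intro A hA
      rw [List.mem_cons] at hA
      rcases hA with rfl | hA
      · have h1 : 2 ^ (m + 2) ≤ 2 ^ (2 * (m + 2)) := Nat.pow_le_pow_right (by norm_num) (by omega)
        have h2 : 0 < 2 ^ (m + 2) := by positivity
        omega
      · exact hlt A hA) hcheck _ _ _ _ (Small.idx_lt p) (Small.idx_lt q) (Small.idx_lt r)
        (Small.idx_lt s)
    have hsame : ∀ x ∈ T, w.testBit (Small.idx x) = w.testBit (Small.idx p) := by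
      intro x hx
      have := hpqr hx
      simp only [mem_insert, mem_singleton] at this
      rcases this with rfl | rfl | rfl | rfl
      · rfl
      · exact hw2.symm
      · exact hw3.symm
      · exact hw4.symm
    rw [List.mem_cons] at hw1
    rcases hw1 with rfl | hw1
    · left
      have h0 : ∀ x ∈ T, (x.1 = 0 ↔ p.1 = 0) := by
        intro x hx
        have := hsame x hx
        rw [Nat.testBit_two_pow_sub_one, Nat.testBit_two_pow_sub_one] at this
        rw [← Small.idx_lt_iff, ← Small.idx_lt_iff]
        simpa using this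
      have hfin : ∀ x y : Fin 2, (x = 0 ↔ y = 0) → x = y := by decide
      intro x hx y hy
      exact hfin _ _ ((h0 x hx).trans (h0 y hy).symm)
    · right
      obtain ⟨i, hi⟩ := List.get_of_mem hw1
      refine ⟨i, fun x hx y hy => ?_⟩
      simp only [mem_filter, mem_univ, true_and]
      rw [hi, hsame x hx, hsame y hy]

end Pool.Agent.Lib.MP_9a58dc_co.Pairs
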