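import Pool.Agent.Lib.MP_9a58dc_co.Pairs

/-!
Explicit families of bipartitions such that any four points share a side.
-/

set_option autoImplicit false

namespace Pool.Agent.Lib.MP_9a58dc_co.Pairs

open Finset Pool.Agent.Lib.MP_9a58dc_co

/-- Rows for `D = 28`. -/
def r28 : List ℕ :=
  [57646075230342348, 28823037615171174, 67818912035696880, 25432092013386330, 16954728008924220,
  42386820022310550, 280396924780290, 47944936110839210, 57477847384339404, 28879113563838822,
  67571518144516080, 25514556643779930, 17103164343632700, 42337341244074390, 48038396025285290,
  21062440542215276, 2532213916761988, 49329030859263207, 20475205177696160, 15560970023249814,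
  66165782732850855, 67638368568119092, 69848191627272647, 64878230166063708, 35501843484115135,
  70088295714723038, 40770883257967472]

theorem digraph28 : ∃ D : Digraph (Gr 2 26), InClass 27 D ∧ gamma D ≤ 2 ∧ 5 ≤ gamma (rev D) :=
  exists_of_rows 26 r28 (by decide +kernel) ⟨0, by decide +kernel⟩ (by decide +kernel)
    (by decide +kernel) (by decide +kernel) (by decide +kernel)

/-- Rows for `D = 29`. -/
def r29 : List ℕ :=
  [57646075247119564, 172938225691027046, 67818912052474096, 169547280089242202,
  16954728008956988, 186502008098166422, 220816092716662656, 120002530148767146,
  273615445126034380, 100936707601766758, 283744300224745456, 97572150681707866,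
  233275946423862076, 114394935282002326, 192153584101141162, 71777179934884043,
  253283238137678657, 97697223244112537, 220154723867008546, 239556181333619607,
  279422438942868244, 139719307416486390, 85342122754349323, 172084718358216195,
  228688953886012226, 198500096936694478, 273799856068655882, 135334354785717576]

theorem digraph29 : ∃ D : Digraph (Gr 2 27), InClass 28 D ∧ gamma D ≤ 2 ∧ 5 ≤ gamma (rev D) :=
  exists_of_rows 27 r29 (by decide +kernel) ⟨0, by decide +kernel⟩ (by decide +kernel)
    (by decide +kernel) (by decide +kernel) (by decide +kernel)

/-- Rows for `D = 30`. -/
def r30 : List ℕ :=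
  [922337203685477580, 461168601842738790, 67818912035827954, 746008032392665690,
  881645856464059452, 474732384249878166, 1081144290316451648, 408232906300478890,
  273650629498123212, 677397459905190246, 1148435428705046384, 385802526833419610,
  233275946457416508, 690855687585425814, 768614336404564650, 1112406081938657264,
  122660359497928897, 790999431211442593, 1058313670996349456, 68381801993793776,
  360103265166743799, 913348753460571065, 594615769664969404, 1119271204738679668,
  467010464993182839, 488350780014626673, 53762540907200767, 194162793679813539,
  315672206006598155]

theorem digraph30 : ∃ D : Digraph (Gr 2 28), InClass 29 D ∧ gamma D ≤ 2 ∧ 5 ≤ gamma (rev D) :=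
  exists_of_rows 28 r30 (by decide +kernel) ⟨0, by decide +kernel⟩ (by decide +kernel)
    (by decide +kernel) (by decide +kernel) (by decide +kernel)

/-- Rows for `D = 31`. -/
def r31 : List ℕ :=
  [922372388057566412, 2767011611056432742, 3526583425856368880, 1898929536999512666,
  4340410370283551804, 1627653888856725142, 4540190279109508864, 1561154410907325866,
  3660357549280736204, 1830318964512037222, 1076377834675507184, 2691645536047113562,
  233275946457416509, 2996698696799119766, 3074457345618258602, 3859083700769141393,
  2635671046349170462, 2774149423570734148, 2292458459702008915, 4180103532402572545,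
  1278865049317069168, 1238224701111165182, 3984628541808122981, 3444416214250433580,
  3514731613990776903, 277859310145864691, 4607777117399690949, 2441277424994661071,
  315015909681131319, 1676451851994994046]

theorem digraph31 : ∃ D : Digraph (Gr 2 29), InClass 30 D ∧ gamma D ≤ 2 ∧ 5 ≤ gamma (rev D) :=
  exists_of_rows 29 r31 (by decide +kernel) ⟨0, by decide +kernel⟩ (by decide +kernel)
    (by decide +kernel) (by decide +kernel) (by decide +kernel)

end Pool.Agent.Lib.MP_9a58dc_co.Pairs
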