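import Pool.Agent.Lib.MP_9a58dc_co.Pairs

/-!
Explicit families of bipartitions such that any four points share a side.
-/

set_option autoImplicit false

namespace Pool.Agent.Lib.MP_9a58dc_co.Pairs

open Finset Pool.Agent.Lib.MP_9a58dc_co

/-- Rows for `D = 33`. -/
def r33 : List ℕ :=
  [14757395258984418508, 44272185776902923878, 17361641481138401524, 43404103702846003802,
  8952096388711988284, 47744514073130604182, 18374966859414961924, 43066328576753817002,
  3732415143318664156, 47947179148785916262, 1148435429250306032, 48808505720320992602,
  14068334551495394108, 44501872862645610902, 49191317529892137642, 70153501381296325877,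
  51006294989851104077, 14047254101727835026, 26681887717791044303, 63992729735452218545,
  53364506191464876497, 63479084449901584815, 29514838435397430734, 60218487315432702940,
  40301093149756996935, 70563140889354680162, 16782321233315078586, 35098226460019925992,
  65731959744489179674, 60910910682170953054, 41452960111372552072, 41098177550566501348]

theorem digraph33 : ∃ D : Digraph (Gr 2 31), InClass 32 D ∧ gamma D ≤ 2 ∧ 5 ≤ gamma (rev D) :=
  exists_of_rows 31 r33 (by decide +kernel) ⟨0, by decide +kernel⟩ (by decide +kernel)
    (by decide +kernel) (by decide +kernel) (by decide +kernel)

/-- Rows for `D = 34`. -/
def r34 : List ℕ :=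
  [236118324143482260684, 118059162071741130342, 17721929451328041200, 190978056292522416730,
  225701339254799219772, 121531490367968810646, 22986652877842415369, 190640281166430229930,
  225093344027833283532, 121734155443624122726, 1148435428713508848, 196382458309997405530,
  235429262886254199612, 118288849157483817366, 196765270119568550570, 157617711460725120686,
  207359249263837730768, 37137754470483798504, 38011521732801072927, 127112815319299389582,
  14479206823429707257, 54797827957855573104, 224960521197430300286, 199885271130617265418,
  42512409058176683603, 240919931233990475497, 74356980521857221624, 9240792387262343193,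
  264708485282158251231, 18375248338686639872, 225902924619709755265, 13559818757777311140,
  277678317084636810381]

theorem digraph34 : ∃ D : Digraph (Gr 2 32), InClass 33 D ∧ gamma D ≤ 2 ∧ 5 ≤ gamma (rev D) :=
  exists_of_rows 32 r34 (by decide +kernel) ⟨0, by decide +kernel⟩ (by decide +kernel)
    (by decide +kernel) (by decide +kernel) (by decide +kernel)

/-- Rows for `D = 35`. -/
def r35 : List ℕ :=
  [236118324152072195276, 708354972430446782054, 976592333314035085552, 486125961471875242586,
  1111145054792857697332, 416679395547321636502, 313522872038776176386, 780936091525135881642,
  225093625502809994188, 712029965802329774438, 886592150966772174832, 491530363489350231386,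
  1120872978424312415036, 413436754336836643222, 787061080478274202282, 1162216372374429696223,
  199222883212132019685, 679055863629551423300, 218129811363077153553, 15297880575672929373,
  417254054283795205980, 356372073489066139480, 1060732242495848498743, 252731371814645101357,
  241757194780387022516, 957868881892065276322, 581308890286431222727, 208735899635571184609,
  1049402585190002248360, 756743422781656540069, 405562557313738256680, 53880769803449639040,
  1168562595771281434418, 341471161285677760886]

theorem digraph35 : ∃ D : Digraph (Gr 2 33), InClass 34 D ∧ gamma D ≤ 2 ∧ 5 ≤ gamma (rev D) :=
  exists_of_rows 33 r35 (by decide +kernel) ⟨0, by decide +kernel⟩ (by decide +kernel)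
    (by decide +kernel) (by decide +kernel) (by decide +kernel)

end Pool.Agent.Lib.MP_9a58dc_co.Pairs
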