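import Pool.Agent.Lib.MP_9a58dc_co.Cube

/-!
Two explicit families of bipartitions such that any three points share a side.
-/

set_option autoImplicit false

namespace Pool.Agent.Lib.MP_9a58dc_co.Small

open Finset Pool.Agent.Lib.MP_9a58dc_co

/-- Any three of the first `2K` positions agree in one of the rows. -/
def check (K : ℕ) (rows : List ℕ) : Bool :=
  (List.range (2 * K)).all fun p => (List.range (2 * K)).all fun q =>
    (List.range (2 * K)).all fun r =>
      rows.any fun w => (w.testBit p == w.testBit q) && (w.testBit q == w.testBit r)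

/-- The position of a point. -/
def idx {m : ℕ} (y : Pt 2 m) : ℕ := y.1.val * (m + 2) + y.2.val

theorem idx_lt {m : ℕ} (y : Pt 2 m) : idx y < 2 * (m + 2) := by
  unfold idx
  have h1 := y.1.isLt
  have h2 := y.2.isLt
  have h3 : y.1.val * (m + 2) ≤ 1 * (m + 2) := Nat.mul_le_mul_right _ (by omega)
  omega

theorem idx_lt_iff {m : ℕ} (y : Pt 2 m) : idx y < m + 2 ↔ y.1 = 0 := by
  unfold idx
  have h2 := y.2.isLt
  have h01 : ∀ a : Fin 2, a = 0 ∨ a = 1 := by decide
  rcases h01 y.1 with h | h
  · rw [h]; simp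
  · rw [h]; simp

theorem exists_of_rows (m : ℕ) (rows : List ℕ) (hlen : rows.length ≤ m + 1)
    (i0 : Fin rows.length)
    (hcard : ∀ i : Fin rows.length,
      (univ.filter fun y : Pt 2 m => (rows.get i).testBit (idx y) = true).card = m + 2)
    (hcross : ∀ a : Fin 2, (∃ j : Fin (m + 2), (rows.get i0).testBit (idx (a, j)) = true) ∧
      (∃ j : Fin (m + 2), (rows.get i0).testBit (idx (a, j)) = false))
    (hcheck : check (m + 2) ((2 ^ (m + 2) - 1) :: rows) = true) :
    ∃ D : Digraph (Gr 2 m), InClass (m + 1) D ∧ gamma D ≤ 2 ∧ 3 + 1 ≤ gamma (rev D) := by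
  classical
  refine Cube.digraph_of_family 3
    (fun i : Fin rows.length => univ.filter fun y : Pt 2 m => (rows.get i).testBit (idx y) = true)
    hcard (by simpa using hlen) i0 ?_ ?_
  · intro a
    obtain ⟨⟨j, hj⟩, ⟨j', hj'⟩⟩ := hcross a
    exact ⟨⟨(a, j), by simpa using hj, rfl⟩, ⟨(a, j'), by simpa using hj', rfl⟩⟩
  · intro T hT
    have hpq : ∃ p q r : Pt 2 m, T ⊆ {p, q, r} := by
      by_cases h3 : 3 ≤ Fintype.card (Pt 2 m)
      · obtain ⟨T', hTT', -, hT'⟩ := Finset.exists_subsuperset_card_eq (Finset.subset_univ T) hT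
          (by rw [Finset.card_univ]; exact h3)
        obtain ⟨p, q, r, -, -, -, rfl⟩ := Finset.card_eq_three.mp hT'
        exact ⟨p, q, r, hTT'⟩
      · exfalso
        simp at h3
        omega
    obtain ⟨p, q, r, hpqr⟩ := hpq
    have hw : ∃ w ∈ ((2 ^ (m + 2) - 1) :: rows),
        w.testBit (idx p) = w.testBit (idx q) ∧ w.testBit (idx q) = w.testBit (idx r) := by
      unfold check at hcheck
      simp only [List.all_eq_true, List.mem_range, List.any_eq_true, Bool.and_eq_true,
        beq_iff_eq] at hcheck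
      exact hcheck _ (idx_lt p) _ (idx_lt q) _ (idx_lt r)
    obtain ⟨w, hw1, hw2, hw3⟩ := hw
    have hsame : ∀ x ∈ T, w.testBit (idx x) = w.testBit (idx p) := by
      intro x hx
      have := hpqr hx
      simp only [mem_insert, mem_singleton] at this
      rcases this with rfl | rfl | rfl
      · rfl
      · exact hw2.symm
      · rw [← hw3, ← hw2]
    rw [List.mem_cons] at hw1
    rcases hw1 with rfl | hw1
    · left
      have h0 : ∀ x ∈ T, (x.1 = 0 ↔ p.1 = 0) := by
        intro x hx
        have := hsame x hx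
        rw [Nat.testBit_two_pow_sub_one, Nat.testBit_two_pow_sub_one] at this
        rw [← idx_lt_iff, ← idx_lt_iff]
        simpa using this
      have hfin : ∀ x y : Fin 2, (x = 0 ↔ y = 0) → x = y := by decide
      intro x hx y hy
      exact hfin _ _ ((h0 x hx).trans (h0 y hy).symm)
    · right
      obtain ⟨i, hi⟩ := List.get_of_mem hw1
      refine ⟨i, fun x hx y hy => ?_⟩
      simp only [mem_filter, mem_univ, true_and]
      rw [hi, hsame x hx, hsame y hy]

/-- The rows for `D = 10`. -/
def rows10 : List ℕ := [437656, 56213, 613194, 640301, 40803, 89276, 575734, 424229, 419430]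

/-- The rows for `D = 11`. -/
def rows11 : List ℕ :=
  [1910628, 2039989, 1927818, 4096752, 1857643, 4030495, 2335339, 190590, 88821, 2476453]

theorem digraph10 : ∃ D : Digraph (Gr 2 8), InClass 9 D ∧ gamma D ≤ 2 ∧ 4 ≤ gamma (rev D) :=
  exists_of_rows 8 rows10 (by decide) ⟨0, by decide⟩ (by decide +kernel) (by decide +kernel)
    (by decide +kernel)

theorem digraph11 : ∃ D : Digraph (Gr 2 9), InClass 10 D ∧ gamma D ≤ 2 ∧ 4 ≤ gamma (rev D) :=
  exists_of_rows 9 rows11 (by decide) ⟨0, by decide⟩ (by decide +kernel) (by decide +kernel)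
    (by decide +kernel)

end Pool.Agent.Lib.MP_9a58dc_co.Small
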