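import Mathlib
import Pool.Agent.Lib.MP_9a58dc_co.Defs
import Pool.Agent.Lib.MP_9a58dc_co.Upper
import Pool.Agent.Lib.MP_9a58dc_co.Lower
import Pool.Agent.Lib.MP_9a58dc_co.ManyMain

/-!
`ρ_r ≥ 3/2` for every `r ≥ 3`.
-/

set_option autoImplicit false

namespace Pool.Agent.Lib.MP_9a58dc_co.Two

open Finset Pool.Agent.Lib.MP_9a58dc_co

/-- A set of points given by its two halves. -/
def two {m : ℕ} (B B' : Finset (Fin (m + 2))) : Finset (Pt 2 m) :=
  univ.filter fun y => if y.1 = 0 then y.2 ∈ B else y.2 ∈ B'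

theorem card_two {m : ℕ} (B B' : Finset (Fin (m + 2))) :
    (two B B').card = B.card + B'.card := by
  classical
  unfold two
  rw [Finset.card_filter, Fintype.sum_prod_type, Fin.sum_univ_two]
  simp

theorem exists_perm {m : ℕ} (A : Finset (Pt 2 m)) (hA : A.card = m + 2) :
    ∃ s : Equiv.Perm (Pt 2 m), ∀ y, y ∈ A ↔ (s y).1 = 0 := by
  classical
  obtain ⟨s, hs⟩ := Equiv.Perm.exists_map_finset_eq A
    (univ.filter fun y : Pt 2 m => y.1 = 0) (by
      rw [hA]
      have := card_part (t := 2) (m := m) (fun _ => 1) (0, 0)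
      simpa [part] using this.symm)
  refine ⟨s, fun y => ?_⟩
  have : s y ∈ A.map s.toEmbedding ↔ y ∈ A := by simp
  rw [← this, hs]
  simp

theorem card_filter_lt (k h : ℕ) (hh : h ≤ k) :
    (univ.filter fun b : Fin k => b.val < h).card = h := by
  have := Fin.card_filter_val_lt (n := k) (m := h)
  simp only [this]
  omega

theorem exists_BC (m : ℕ) : ∃ B C B' : Finset (Fin (m + 2)),
    0 ∈ B ∧ 0 ∈ B' ∧ (∀ b, b ≠ 0 → (b ∈ B ↔ b ∈ C)) ∧
    B.card + B'.card = m + 2 ∧ C.card + B'ᶜ.card = m + 2 := by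
  classical
  set h := (m + 2) / 2 with hh
  have h1 : 1 ≤ h := by omega
  set B' : Finset (Fin (m + 2)) := univ.filter fun b => b.val < h with hB'
  set B : Finset (Fin (m + 2)) := univ.filter fun b => b.val < m + 2 - h with hB
  have cB' : B'.card = h := card_filter_lt _ _ (by omega)
  have cB : B.card = m + 2 - h := card_filter_lt _ _ (by omega)
  have hB0 : 0 ∈ B := by simp [hB]; omega
  have hB'0 : 0 ∈ B' := by simp [hB']; omega
  have cc : B'ᶜ.card = m + 2 - h := by
    rw [Finset.card_compl, cB', Fintype.card_fin]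
  by_cases hev : (m + 2) % 2 = 0
  · refine ⟨B, B, B', hB0, hB'0, fun b _ => Iff.rfl, by omega, by omega⟩
  · refine ⟨B, B.erase 0, B', hB0, hB'0, fun b hb => by simp [hb], by omega, ?_⟩
    rw [Finset.card_erase_of_mem hB0]
    omega

theorem exists_digraph (m : ℕ) (hm : 2 ≤ m) :
    ∃ D : Digraph (Gr 2 m), InClass (m + 1) D ∧ gamma D ≤ 2 ∧ 3 ≤ gamma (rev D) := by
  classical
  obtain ⟨B, C, B', hB0, hB'0, hBC, hc1, hc2⟩ := exists_BC m
  obtain ⟨s2, hs2⟩ := exists_perm (two B B') (by rw [card_two, hc1])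
  obtain ⟨s3, hs3⟩ := exists_perm (two C B'ᶜ) (by rw [card_two, hc2])
  set σ : Fin (m + 2) → Equiv.Perm (Pt 2 m) := fun i =>
    if i.val = 1 then rot 2 m else if i.val = 2 then s2 else if i.val = 3 then s3 else 1 with hσ
  have hσ0 : σ 0 = 1 := by simp [hσ]
  have hσ1 : σ 1 = rot 2 m := by simp [hσ]
  obtain ⟨φ, hφ, hφ2⟩ := exists_sdr σ
  refine ⟨dig σ φ, ⟨fun v hv => hv.1 rfl, (dig_regular σ φ hφ hφ2).1, (dig_regular σ φ hφ hφ2).2,
    dig_strong σ φ hφ (conn_of_rot σ hσ0 hσ1)⟩, dig_gamma_le σ φ,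
    dig_le_gamma_rev σ φ hφ2 2 ?_⟩
  -- two points always lie in a common part
  have hcommon : ∀ p q : Pt 2 m, ∃ i : Fin (m + 2), (σ i p).1 = (σ i q).1 := by
    have key : ∀ b b' : Fin (m + 2), ∃ i : Fin (m + 2), (σ i (0, b)).1 = (σ i (1, b')).1 := by
      intro b b'
      have i2 : ∀ y, (σ ⟨2, by omega⟩ y).1 = 0 ↔ y ∈ two B B' := by
        intro y; simp [hσ, hs2 y]
      have i3 : ∀ y, (σ ⟨3, by omega⟩ y).1 = 0 ↔ y ∈ two C B'ᶜ := by
        intro y; simp [hσ, hs3 y]
      have hfin : ∀ x y : Fin 2, (x = 0 ↔ y = 0) → x = y := by decide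
      have m2 : ((0, b) ∈ two B B' ↔ b ∈ B) ∧ ((1, b') ∈ two B B' ↔ b' ∈ B') := by
        constructor <;> simp [two]
      have m3 : ((0, b) ∈ two C B'ᶜ ↔ b ∈ C) ∧ ((1, b') ∈ two C B'ᶜ ↔ b' ∉ B') := by
        constructor <;> simp [two]
      by_cases h2 : (b ∈ B ↔ b' ∈ B')
      · refine ⟨⟨2, by omega⟩, hfin _ _ ?_⟩
        rw [i2, i2, m2.1, m2.2]
        exact h2
      · by_cases hb : b = 0
        · subst hb
          have hb' : b' ≠ 0 := by
            rintro rfl
            exact h2 (by simp [hB0, hB'0])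
          refine ⟨1, ?_⟩
          simp [hσ1, rot, hb']
        · refine ⟨⟨3, by omega⟩, hfin _ _ ?_⟩
          rw [i3, i3, m3.1, m3.2, ← hBC b hb]
          tauto
    rintro ⟨a, b⟩ ⟨a', b'⟩
    have h01 : ∀ x : Fin 2, x = 0 ∨ x = 1 := by decide
    rcases h01 a with rfl | rfl <;> rcases h01 a' with rfl | rfl
    · exact ⟨0, by simp [hσ0]⟩
    · exact key b b'
    · obtain ⟨i, hi⟩ := key b' b
      exact ⟨i, hi.symm⟩
    · exact ⟨0, by simp [hσ0]⟩
  intro T hT
  have hpq : ∃ p q : Pt 2 m, T ⊆ {p, q} := by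
    obtain ⟨T', hTT', -, hT'⟩ := Finset.exists_subsuperset_card_eq (Finset.subset_univ T) hT
      (by rw [Finset.card_univ]; simp)
    obtain ⟨p, q, -, rfl⟩ := Finset.card_eq_two.mp hT'
    exact ⟨p, q, hTT'⟩
  obtain ⟨p, q, hpq⟩ := hpq
  obtain ⟨i, hi⟩ := hcommon p q
  refine ⟨(i, (σ i p).1 + 1), ?_⟩
  have hne : ∀ x : Fin 2, x ≠ x + 1 := by decide
  rw [Finset.disjoint_left]
  intro y hy hyT
  have hy2 := hpq hyT
  simp only [part, mem_filter, mem_univ, true_and] at hy
  simp only [mem_insert, mem_singleton] at hy2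
  rcases hy2 with rfl | rfl
  · exact hne _ hy
  · rw [hi] at hy
    exact hne _ hy

/-- `ρ_r ≥ 3/2` for every `r ≥ 3`. -/
theorem three_halves (r : ℕ) (hr : 3 ≤ r) : (3 / 2 : ℝ) ≤ rho r := by
  obtain ⟨m, rfl⟩ : ∃ m, r = m + 1 := ⟨r - 1, by omega⟩
  obtain ⟨D, hD, hg, hgr⟩ := exists_digraph m (by omega)
  have hne : Nonempty (Gr 2 m) := ⟨(0, 0)⟩
  exact rho_ge_of_digraph D hD 2 3 _ hg hgr (by norm_num) (by norm_num)

/-- The complete digraph. -/
def compl (r : ℕ) : Digraph (Fin (r + 1)) := ⟨fun u v => u ≠ v⟩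

theorem compl_inClass (r : ℕ) : InClass r (compl r) := by
  classical
  refine ⟨fun v h => h rfl, fun v => ?_, fun v => ?_, fun u v => ?_⟩
  · have h1 : {w | (compl r).Adj v w} = ((univ.erase v : Finset (Fin (r + 1))) : Set _) := by
      ext w
      simp [compl, ne_comm]
    rw [h1, Set.ncard_coe_finset, Finset.card_erase_of_mem (mem_univ v)]
    simp
  · have h1 : {w | (compl r).Adj w v} = ((univ.erase v : Finset (Fin (r + 1))) : Set _) := by
      ext w
      simp [compl]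
    rw [h1, Set.ncard_coe_finset, Finset.card_erase_of_mem (mem_univ v)]
    simp
  · by_cases h : u = v
    · rw [h]
    · exact Relation.ReflTransGen.single h

theorem rev_compl (r : ℕ) : rev (compl r) = compl r := by
  unfold rev compl
  congr 1
  ext u v
  exact ne_comm

/-- The set of ratios contains `1`. -/
theorem one_mem_ratios (r : ℕ) : (1 : ℝ) ∈ ratios r := by
  refine ⟨Fin (r + 1), inferInstance, inferInstance, compl r, compl_inClass r, ?_⟩
  rw [rev_compl, div_self]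
  have := card_le_gamma (compl_inClass r)
  have h3 : 0 < Fintype.card (Fin (r + 1)) := Fintype.card_pos
  have : 0 < gamma (compl r) := by
    rcases Nat.eq_zero_or_pos (gamma (compl r)) with h | h
    · rw [h] at this; omega
    · exact h
  exact_mod_cast this.ne'

theorem one_le_rho (r : ℕ) : (1 : ℝ) ≤ rho r :=
  le_csSup (bddAbove_ratios r) (one_mem_ratios r)

end Pool.Agent.Lib.MP_9a58dc_co.Two
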