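import Pool.Agent.Lib.MP_9a58dc_co.Upper

/-!
The upper bound `γ(D⁻)/γ(D) ≤ 1 + log (r + 1)` for all `r` (the rounding term of `exists_cover` is
removed by taking `m` disjoint copies).
-/

set_option autoImplicit false

namespace Pool.Agent.Lib.MP_9a58dc_co

open Finset

theorem exists_cover_all {V : Type} [Fintype V] [DecidableEq V] (N : V → Finset V) (k : ℕ)
    (hk : 1 ≤ k) (hN : ∀ v, (N v).card = k) (hself : ∀ v, v ∈ N v) [Nonempty V] :
    ∃ T : Finset V, (∀ v, ∃ u ∈ T, u ∈ N v) ∧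
      (T.card : ℝ) ≤ (Fintype.card V : ℝ) / k * (Real.log k + 1) := by
  classical
  -- a cover of least size
  obtain ⟨T₀, hT₀, hmin⟩ : ∃ T₀ : Finset V, (∀ v, ∃ u ∈ T₀, u ∈ N v) ∧
      ∀ T : Finset V, (∀ v, ∃ u ∈ T, u ∈ N v) → T₀.card ≤ T.card := by
    have hne : (univ.filter fun T : Finset V => ∀ v, ∃ u ∈ T, u ∈ N v).Nonempty :=
      ⟨univ, by
        rw [mem_filter]
        exact ⟨mem_univ _, fun v => ⟨v, mem_univ _, hself v⟩⟩⟩
    obtain ⟨T₀, h1, h2⟩ := exists_min_image _ Finset.card hne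
    refine ⟨T₀, (mem_filter.1 h1).2, fun T hT => h2 T (mem_filter.2 ⟨mem_univ _, hT⟩)⟩
  refine ⟨T₀, hT₀, ?_⟩
  set c : ℝ := (Fintype.card V : ℝ) / k * (Real.log k + 1) with hc
  -- `m` copies
  have hcopy : ∀ m : ℕ, 1 ≤ m → (T₀.card : ℝ) * m ≤ c * m + 1 := by
    intro m hm
    have : Nonempty (Fin m) := ⟨⟨0, hm⟩⟩
    obtain ⟨T, hT, hTc⟩ := exists_cover (V := V × Fin m) (fun w => N w.1 ×ˢ {w.2}) k hk
      (fun w => by rw [card_product, card_singleton, mul_one, hN])
      (fun w => by rw [mem_product, mem_singleton]; exact ⟨hself _, rfl⟩)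
    have hsum : ∑ i : Fin m, (T.filter fun w => w.2 = i).card = T.card :=
      (card_eq_sum_card_fiberwise (f := Prod.snd) (t := univ) fun w _ => mem_coe.2 (mem_univ _)).symm
    have hge : ∀ i : Fin m, T₀.card ≤ (T.filter fun w => w.2 = i).card := by
      intro i
      refine (hmin ((T.filter fun w => w.2 = i).image Prod.fst) ?_).trans card_image_le
      intro v
      obtain ⟨u, hu, hu2⟩ := hT (v, i)
      rw [mem_product, mem_singleton] at hu2
      exact ⟨u.1, mem_image.2 ⟨u, mem_filter.2 ⟨hu, hu2.2⟩, rfl⟩, hu2.1⟩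
    have h1 : m * T₀.card ≤ T.card := by
      rw [← hsum]
      calc m * T₀.card = ∑ _i : Fin m, T₀.card := by simp
        _ ≤ _ := sum_le_sum fun i _ => hge i
    have h2 : ((m : ℝ) * T₀.card) ≤ T.card := by exact_mod_cast h1
    have h3 : ((Fintype.card (V × Fin m) : ℕ) : ℝ) / k * (Real.log k + 1) = c * m := by
      rw [Fintype.card_prod, Fintype.card_fin, hc]
      push_cast
      ring
    rw [h3] at hTc
    linarith
  -- limit
  by_contra hlt
  push Not at hlt
  obtain ⟨m, hm⟩ := exists_nat_gt (1 / ((T₀.card : ℝ) - c))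
  have hpos : 0 < (T₀.card : ℝ) - c := by linarith
  have hm0 : (0 : ℝ) < m := lt_trans (by positivity) hm
  have hm1 : 1 ≤ m := by
    have : 0 < m := by exact_mod_cast hm0
    omega
  have h1 := hcopy m hm1
  rw [div_lt_iff₀ hpos] at hm
  nlinarith

theorem gamma_rev_le_all {V : Type} [Fintype V] [Nonempty V] {r : ℕ} {D : Digraph V}
    (hD : InClass r D) :
    (gamma (rev D) : ℝ) ≤ (Fintype.card V : ℝ) / (r + 1 : ℕ) * (Real.log (r + 1 : ℕ) + 1) := by
  classical
  obtain ⟨T, hT, hT2⟩ := exists_cover_all (clNbr D) (r + 1) (by omega) (card_clNbr hD)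
    (fun v => by simp [clNbr])
  refine le_trans ?_ hT2
  have : gamma (rev D) ≤ T.card := by
    apply Nat.sInf_le
    refine ⟨T, rfl, ?_⟩
    intro v hv
    obtain ⟨u, hu, hu2⟩ := hT v
    refine ⟨u, hu, ?_⟩
    simp only [clNbr, mem_insert, mem_filter, mem_univ, true_and] at hu2
    rcases hu2 with h | h
    · subst h; exact absurd hu hv
    · exact h
  exact_mod_cast this

/-- `γ(D⁻)/γ(D) ≤ 1 + log (r + 1)` for every `r`-regular digraph of the class. -/
theorem ratio_le_all {V : Type} [Finite V] [Nonempty V] {r : ℕ} {D : Digraph V}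
    (hD : InClass r D) :
    (gamma (rev D) : ℝ) / (gamma D : ℝ) ≤ 1 + Real.log (r + 1 : ℕ) := by
  classical
  have := Fintype.ofFinite V
  have h1 := gamma_rev_le_all hD
  have h2 := card_le_gamma hD
  set n : ℝ := ((Fintype.card V : ℕ) : ℝ) with hn
  have hk0 : (0 : ℝ) < (r + 1 : ℕ) := by positivity
  have hn0 : 0 < n := by rw [hn]; exact_mod_cast Fintype.card_pos
  have h3 : n / (r + 1 : ℕ) ≤ gamma D := by
    rw [div_le_iff₀ hk0, hn]; exact_mod_cast h2
  have hg : (0 : ℝ) < gamma D := lt_of_lt_of_le (by positivity) h3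
  rw [div_le_iff₀ hg]
  have hlog : 0 ≤ Real.log (r + 1 : ℕ) := Real.log_nonneg (by exact_mod_cast Nat.succ_pos r)
  calc (gamma (rev D) : ℝ) ≤ n / (r + 1 : ℕ) * (Real.log (r + 1 : ℕ) + 1) := h1
    _ ≤ gamma D * (Real.log (r + 1 : ℕ) + 1) :=
      mul_le_mul_of_nonneg_right h3 (by linarith)
    _ = (1 + Real.log (r + 1 : ℕ)) * gamma D := by ring

/-- `ρ_r ≤ 1 + log (r + 1)` for every `r`. -/
theorem rho_le_all (r : ℕ) : rho r ≤ 1 + Real.log (r + 1 : ℕ) := by
  refine Real.sSup_le ?_ ?_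
  · rintro x ⟨V, hV, hV2, D, hD, rfl⟩
    exact ratio_le_all hD
  · have hlog : 0 ≤ Real.log (r + 1 : ℕ) := Real.log_nonneg (by exact_mod_cast Nat.succ_pos r)
    linarith

theorem rho_le_log (r : ℕ) (_ : 2 ≤ r) : rho r ≤ 1 + Real.log (r + 1) := by
  have h := rho_le_all r
  push_cast at h
  exact h

end Pool.Agent.Lib.MP_9a58dc_co
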